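import Pool.Agent.H78R2.Mont.Geo

set_option autoImplicit false

/-! The sum of `G N (t v)` over `v < qJ`. -/

namespace Pool.Agent.H78R2.Mont

open Finset

noncomputable section

/-- the integer nearest to `q` times the signed distance of `x` to the nearest integer -/
def sv (q : ℕ) (x : ℝ) : ℤ := round ((q : ℝ) * (x - round x))

lemma sv_close (q : ℕ) (x : ℝ) : |(q : ℝ) * (x - round x) - sv q x| ≤ 1 / 2 :=
  abs_sub_round _

lemma nn_ge (q : ℕ) (hq : 1 ≤ q) (x : ℝ) : |(sv q x : ℝ)| / (2 * q) ≤ nn x := by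
  have hq0 : (0 : ℝ) < q := by exact_mod_cast hq
  have h1 := sv_close q x
  have h2 : nn x = |x - round x| := rfl
  rcases eq_or_ne (sv q x) 0 with h0 | h0
  · rw [h0]; simp [nn_nonneg]
  · have h3 : (1 : ℝ) ≤ |(sv q x : ℝ)| := by
      have : (1 : ℤ) ≤ |sv q x| := Int.one_le_abs h0
      exact_mod_cast this
    have h4 : |(sv q x : ℝ)| ≤ |(q : ℝ) * (x - round x)| + 1 / 2 := by
      have h5 : (sv q x : ℝ) = (q : ℝ) * (x - round x) - ((q : ℝ) * (x - round x) - sv q x) := by
        ring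
      calc |(sv q x : ℝ)| = |(q : ℝ) * (x - round x) - ((q : ℝ) * (x - round x) - sv q x)| := by
            rw [← h5]
        _ ≤ _ := (abs_sub _ _).trans (by linarith)
    rw [abs_mul, abs_of_pos hq0, ← h2] at h4
    rw [div_le_iff₀ (by positivity)]
    nlinarith

lemma sv_abs_le (q : ℕ) (hq : 1 ≤ q) (x : ℝ) : |sv q x| ≤ q := by
  have hq0 : (1 : ℝ) ≤ q := by exact_mod_cast hq
  have h1 := sv_close q x
  have h2 : |x - round x| ≤ 1 / 2 := abs_sub_round x
  have h4 : |(sv q x : ℝ)| ≤ |(q : ℝ) * (x - round x)| + 1 / 2 := by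
    have h5 : (sv q x : ℝ) = (q : ℝ) * (x - round x) - ((q : ℝ) * (x - round x) - sv q x) := by
      ring
    calc |(sv q x : ℝ)| = |(q : ℝ) * (x - round x) - ((q : ℝ) * (x - round x) - sv q x)| := by
          rw [← h5]
      _ ≤ _ := (abs_sub _ _).trans (by linarith)
  rw [abs_mul, abs_of_pos (show (0 : ℝ) < q by linarith)] at h4
  have h6 : |(sv q x : ℝ)| ≤ q := by nlinarith
  exact_mod_cast h6

/-- the fibres of `sv` on a block of length `q` have at most three elements -/
lemma fibre (t : ℝ) (a q : ℕ) (hq : 1 ≤ q) (hc : Nat.Coprime a q)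
    (ht : |t - (a : ℝ) / (q : ℝ)| ≤ 1 / (q : ℝ) ^ 2) (j : ℕ) (s : ℤ) :
    ((range q).filter (fun r => sv q (t * ((q * j + r : ℕ) : ℝ)) = s)).card ≤ 3 := by
  classical
  have hq0 : (0 : ℝ) < q := by exact_mod_cast hq
  set F := (range q).filter (fun r => sv q (t * ((q * j + r : ℕ) : ℝ)) = s) with hF
  rcases F.eq_empty_or_nonempty with h | ⟨r0, hr0⟩
  · rw [h]; simp
  -- for r ∈ F there are an integer m and c ∈ {-1,0,1} with a (r - r0) = q m + c
  have key : ∀ r ∈ F, ∃ m c : ℤ, (a : ℤ) * ((r : ℤ) - r0) = q * m + c ∧ (c = -1 ∨ c = 0 ∨ c = 1) := by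
    intro r hr
    rw [hF, mem_filter, mem_range] at hr hr0
    set x := t * ((q * j + r : ℕ) : ℝ) with hx
    set x0 := t * ((q * j + r0 : ℕ) : ℝ) with hx0
    have h1 := sv_close q x
    have h2 := sv_close q x0
    rw [hr.2] at h1
    rw [hr0.2] at h2
    -- |q (δ - δ0)| ≤ 1
    have h3 : |(q : ℝ) * ((x - round x) - (x0 - round x0))| ≤ 1 := by
      have : (q : ℝ) * ((x - round x) - (x0 - round x0)) =
          ((q : ℝ) * (x - round x) - s) - ((q : ℝ) * (x0 - round x0) - s) := by ring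
      rw [this]
      exact (abs_sub _ _).trans (by linarith)
    set d : ℤ := (r : ℤ) - r0 with hd
    have hdabs : |(d : ℝ)| < q := by
      rw [abs_lt, hd]
      push_cast
      have h4 : (r : ℝ) < q := by exact_mod_cast hr.1
      have h5 : (r0 : ℝ) < q := by exact_mod_cast hr0.1
      have h6 : (0 : ℝ) ≤ r := Nat.cast_nonneg _
      have h7 : (0 : ℝ) ≤ r0 := Nat.cast_nonneg _
      constructor <;> linarith
    set m : ℤ := round x - round x0 with hm
    refine ⟨m, (a : ℤ) * d - q * m, by ring, ?_⟩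
    have h8 : |(((a : ℤ) * d - q * m : ℤ) : ℝ)| < 2 := by
      have h9 : (((a : ℤ) * d - q * m : ℤ) : ℝ) =
          (q : ℝ) * ((x - round x) - (x0 - round x0)) - q * d * (t - (a : ℝ) / q) := by
        have e1 : x - x0 = t * d := by rw [hx, hx0, hd]; push_cast; ring
        have e2 : (q : ℝ) * (d : ℝ) * (t - a / q) = q * d * t - a * d := by field_simp
        have e3 : (((a : ℤ) * d - q * m : ℤ) : ℝ) = a * d - q * (round x - round x0) := by
          rw [hm]; push_cast; ring
        rw [e2, e3]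
        linear_combination (-(q : ℝ)) * e1
      rw [h9]
      have h10 : |(q : ℝ) * d * (t - (a : ℝ) / q)| < 1 := by
        rw [abs_mul, abs_mul, abs_of_pos hq0]
        calc (q : ℝ) * |(d : ℝ)| * |t - (a : ℝ) / q| ≤ (q : ℝ) * |(d : ℝ)| * (1 / (q : ℝ) ^ 2) :=
              mul_le_mul_of_nonneg_left ht (by positivity)
          _ = |(d : ℝ)| / q := by field_simp
          _ < 1 := by rw [div_lt_one hq0]; exact hdabs
      exact lt_of_le_of_lt (abs_sub _ _) (by linarith)
    have h11 : |(a : ℤ) * d - q * m| < 2 := by exact_mod_cast h8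
    rw [abs_lt] at h11
    omega
  -- injection to {-1, 0, 1}
  have hinj : F.card ≤ ({-1, 0, 1} : Finset ℤ).card := by
    choose! m c hmc using key
    apply card_le_card_of_injOn c
    · intro r hr
      have := (hmc r hr).2
      simp only [coe_insert, coe_singleton, Set.mem_insert_iff, Set.mem_singleton_iff]
      exact this
    · intro r hr r' hr' hcc
      have h1 := (hmc r hr).1
      have h2 := (hmc r' hr').1
      have h3 : (a : ℤ) * ((r : ℤ) - r') = q * (m r - m r') := by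
        have : c r = c r' := hcc
        linear_combination h1 - h2 + this
      have h4 : (q : ℤ) ∣ (a : ℤ) * ((r : ℤ) - r') := ⟨_, h3⟩
      have h5 : IsCoprime (q : ℤ) (a : ℤ) := by
        rw [Nat.isCoprime_iff_coprime]
        exact hc.symm
      have h6 := h5.dvd_of_dvd_mul_left h4
      have hr1 : r < q := by
        have := hr
        simp only [hF, coe_filter, mem_range, Set.mem_ofPred_eq] at this
        exact this.1
      have hr1' : r' < q := by
        have := hr'
        simp only [hF, coe_filter, mem_range, Set.mem_ofPred_eq] at this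
        exact this.1
      obtain ⟨z, hz⟩ := h6
      have h7 : z = 0 := by
        have h8 : |(r : ℤ) - r'| < q := by rw [abs_lt]; constructor <;> omega
        rw [hz, abs_mul] at h8
        by_contra hne
        have h9 : 1 ≤ |z| := Int.one_le_abs hne
        have h10 : |(q : ℤ)| = q := by simp
        rw [h10] at h8
        nlinarith
      rw [h7, mul_zero] at hz
      omega
  refine hinj.trans ?_
  decide

/-- the sum over `[-M, M]` of a function of `|s|` -/
lemma sum_abs_le (f : ℕ → ℝ) (hf : ∀ n, 0 ≤ f n) (M : ℕ) :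
    ∑ s ∈ Icc (-(M : ℤ)) M, f s.natAbs ≤ 2 * ∑ n ∈ range (M + 1), f n := by
  classical
  have h1 : Icc (-(M : ℤ)) M ⊆ (range (M + 1)).image (fun n : ℕ => (n : ℤ)) ∪
      (range (M + 1)).image (fun n : ℕ => -(n : ℤ)) := by
    intro s hs
    rw [mem_Icc] at hs
    rw [mem_union, mem_image, mem_image]
    rcases le_total 0 s with h | h
    · left; exact ⟨s.toNat, by rw [mem_range]; omega, by omega⟩
    · right; exact ⟨(-s).toNat, by rw [mem_range]; omega, by omega⟩
  have h2 : ∑ s ∈ Icc (-(M : ℤ)) M, f s.natAbs ≤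
      ∑ s ∈ (range (M + 1)).image (fun n : ℕ => (n : ℤ)) ∪
      (range (M + 1)).image (fun n : ℕ => -(n : ℤ)), f s.natAbs :=
    sum_le_sum_of_subset_of_nonneg h1 (fun _ _ _ => hf _)
  have h3 : ∑ s ∈ (range (M + 1)).image (fun n : ℕ => (n : ℤ)), f s.natAbs =
      ∑ n ∈ range (M + 1), f n := by
    rw [sum_image (by intro x _ y _ h; simpa using h)]
    simp
  have h4 : ∑ s ∈ (range (M + 1)).image (fun n : ℕ => -(n : ℤ)), f s.natAbs =
      ∑ n ∈ range (M + 1), f n := by
    rw [sum_image (by intro x _ y _ h; simpa using h)]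
    simp
  have h5 := sum_union_inter (s₁ := (range (M + 1)).image (fun n : ℕ => (n : ℤ)))
    (s₂ := (range (M + 1)).image (fun n : ℕ => -(n : ℤ))) (f := fun s : ℤ => f s.natAbs)
  have h6 : 0 ≤ ∑ s ∈ (range (M + 1)).image (fun n : ℕ => (n : ℤ)) ∩
      (range (M + 1)).image (fun n : ℕ => -(n : ℤ)), f s.natAbs := sum_nonneg (fun _ _ => hf _)
  linarith

/-- harmonic sum -/
lemma harm (q : ℕ) (_hq : 1 ≤ q) : ∑ n ∈ range q, (1 : ℝ) / ((n : ℝ) + 1) ≤ 1 + Real.log q := by
  have h := harmonic_le_one_add_log q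
  have h2 : ((harmonic q : ℚ) : ℝ) = ∑ n ∈ range q, (1 : ℝ) / ((n : ℝ) + 1) := by
    unfold harmonic
    push_cast
    apply sum_congr rfl
    intro i _
    rw [one_div]
  rw [← h2]
  exact h

/-- one block -/
lemma block (N : ℕ) (t : ℝ) (a q : ℕ) (hq : 1 ≤ q) (hc : Nat.Coprime a q)
    (ht : |t - (a : ℝ) / (q : ℝ)| ≤ 1 / (q : ℝ) ^ 2) (j : ℕ) :
    ∑ r ∈ range q, G N (t * ((q * j + r : ℕ) : ℝ)) ≤
      12 * N + 12 * (q * (1 + Real.log q)) := by
  classical
  have hq0 : (0 : ℝ) < q := by exact_mod_cast hq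
  have hN0 : (0 : ℝ) ≤ N := Nat.cast_nonneg _
  set g : ℕ → ℝ := fun m => 2 * N / (1 + N * m / q) with hg
  have hg0 : ∀ m, 0 ≤ g m := fun m => by rw [hg]; positivity
  have h1 : ∀ r ∈ range q, G N (t * ((q * j + r : ℕ) : ℝ)) ≤
      g (sv q (t * ((q * j + r : ℕ) : ℝ))).natAbs := by
    intro r _
    set x := t * ((q * j + r : ℕ) : ℝ)
    have h2 := nn_ge q hq x
    have h3 : (((sv q x).natAbs : ℕ) : ℝ) = |(sv q x : ℝ)| := by
      rw [Nat.cast_natAbs]; push_cast; rfl
    rw [hg]
    unfold G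
    simp only
    rw [h3]
    apply div_le_div_of_nonneg_left (by positivity) (by positivity)
    have h4 : N * |(sv q x : ℝ)| / q = 2 * N * (|(sv q x : ℝ)| / (2 * q)) := by
      field_simp
    rw [h4]
    have : 2 * (N : ℝ) * (|(sv q x : ℝ)| / (2 * q)) ≤ 2 * N * nn x :=
      mul_le_mul_of_nonneg_left h2 (by positivity)
    linarith
  have h5 : ∑ r ∈ range q, g (sv q (t * ((q * j + r : ℕ) : ℝ))).natAbs =
      ∑ s ∈ Icc (-(q : ℤ)) q, ∑ r ∈ (range q).filter
        (fun r => sv q (t * ((q * j + r : ℕ) : ℝ)) = s), g (sv q (t * ((q * j + r : ℕ) : ℝ))).natAbs := by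
    rw [sum_fiberwise_of_maps_to]
    intro r _
    rw [mem_Icc]
    have := sv_abs_le q hq (t * ((q * j + r : ℕ) : ℝ))
    rw [abs_le] at this
    exact this
  have h6 : ∀ s ∈ Icc (-(q : ℤ)) q, ∑ r ∈ (range q).filter
        (fun r => sv q (t * ((q * j + r : ℕ) : ℝ)) = s), g (sv q (t * ((q * j + r : ℕ) : ℝ))).natAbs ≤
        3 * g s.natAbs := by
    intro s _
    have h7 : ∑ r ∈ (range q).filter
        (fun r => sv q (t * ((q * j + r : ℕ) : ℝ)) = s), g (sv q (t * ((q * j + r : ℕ) : ℝ))).natAbs =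
        ∑ r ∈ (range q).filter
        (fun r => sv q (t * ((q * j + r : ℕ) : ℝ)) = s), g s.natAbs := by
      apply sum_congr rfl
      intro r hr
      rw [mem_filter] at hr
      rw [hr.2]
    rw [h7, sum_const, nsmul_eq_mul]
    apply mul_le_mul_of_nonneg_right _ (hg0 _)
    exact_mod_cast fibre t a q hq hc ht j s
  have h8 : ∑ s ∈ Icc (-(q : ℤ)) q, 3 * g s.natAbs ≤ 6 * ∑ n ∈ range (q + 1), g n := by
    rw [← mul_sum]
    have := sum_abs_le g hg0 q
    linarith
  have h9 : ∑ n ∈ range (q + 1), g n ≤ 2 * N + 2 * (q * (1 + Real.log q)) := by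
    rw [sum_range_succ']
    have h10 : g 0 = 2 * N := by rw [hg]; simp
    have h11 : ∑ n ∈ range q, g (n + 1) ≤ ∑ n ∈ range q, 2 * q * (1 / ((n : ℝ) + 1)) := by
      apply sum_le_sum
      intro n _
      rw [hg]
      simp only
      rw [div_le_iff₀ (by positivity)]
      have h12 : 2 * (q : ℝ) * (1 / ((n : ℝ) + 1)) * (1 + N * ((n + 1 : ℕ) : ℝ) / q) =
          2 * q / ((n : ℝ) + 1) + 2 * N := by
        push_cast
        field_simp
      rw [h12]
      have : 0 ≤ 2 * (q : ℝ) / ((n : ℝ) + 1) := by positivity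
      linarith
    rw [← mul_sum] at h11
    have h13 := harm q hq
    have h14 : 2 * (q : ℝ) * ∑ n ∈ range q, (1 / ((n : ℝ) + 1)) ≤ 2 * q * (1 + Real.log q) :=
      mul_le_mul_of_nonneg_left h13 (by positivity)
    rw [h10]
    linarith
  calc ∑ r ∈ range q, G N (t * ((q * j + r : ℕ) : ℝ)) ≤
        ∑ r ∈ range q, g (sv q (t * ((q * j + r : ℕ) : ℝ))).natAbs := sum_le_sum h1
    _ ≤ ∑ s ∈ Icc (-(q : ℤ)) q, 3 * g s.natAbs := by rw [h5]; exact sum_le_sum h6
    _ ≤ 6 * (2 * N + 2 * (q * (1 + Real.log q))) := by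
        refine h8.trans ?_
        linarith
    _ = _ := by ring

/-- all `v < q J` -/
lemma blocks (N : ℕ) (t : ℝ) (a q : ℕ) (hq : 1 ≤ q) (hc : Nat.Coprime a q)
    (ht : |t - (a : ℝ) / (q : ℝ)| ≤ 1 / (q : ℝ) ^ 2) (J : ℕ) :
    ∑ v ∈ range (q * J), G N (t * (v : ℝ)) ≤
      J * (12 * N + 12 * (q * (1 + Real.log q))) := by
  induction J with
  | zero => simp
  | succ J ih =>
    rw [Nat.mul_succ, sum_range_add]
    have := block N t a q hq hc ht J
    push_cast at this ⊢
    linarith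

end

end Pool.Agent.H78R2.Mont
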