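import Pool.Agent.H78R2.Mont.Geo

set_option autoImplicit false

/-! Weyl differencing. -/

namespace Pool.Agent.H78R2.Mont

open Finset

noncomputable section

/-- the sum of `e(f)` over an interval of integers -/
def ES (f : ℤ → ℝ) (A B : ℤ) : ℂ := ∑ m ∈ Icc A B, e (f m)

/-- the difference of `f` with step `h` -/
def Dl (h : ℤ) (f : ℤ → ℝ) : ℤ → ℝ := fun m => f (m + h) - f m

lemma sq_eq (N : ℕ) (A B : ℤ) (hA : 1 ≤ A) (hB : B ≤ N) (f : ℤ → ℝ) :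
    ES f A B * (starRingEnd ℂ) (ES f A B) =
      ∑ h ∈ Icc (-(N : ℤ)) N, ES (Dl h f) (max A (A - h)) (min B (B - h)) := by
  classical
  have h1 : ES f A B * (starRingEnd ℂ) (ES f A B) =
      ∑ x ∈ Icc A B ×ˢ Icc A B, e (f x.2 - f x.1) := by
    unfold ES
    rw [map_sum, sum_mul_sum, sum_product, sum_comm]
    apply sum_congr rfl
    intro m _
    apply sum_congr rfl
    intro n _
    rw [← e_neg, ← e_add]
    congr 1
  have h2 : ∑ x ∈ Icc A B ×ˢ Icc A B, e (f x.2 - f x.1) =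
      ∑ h ∈ Icc (-(N : ℤ)) N, ∑ x ∈ (Icc A B ×ˢ Icc A B).filter (fun x => x.2 - x.1 = h),
        e (f x.2 - f x.1) := by
    rw [sum_fiberwise_of_maps_to]
    intro x hx
    rw [mem_product, mem_Icc, mem_Icc] at hx
    rw [mem_Icc]
    omega
  rw [h1, h2]
  apply sum_congr rfl
  intro h _
  unfold ES Dl
  apply sum_bij' (fun (x : ℤ × ℤ) _ => x.1) (fun (m : ℤ) _ => (m, m + h))
  · intro x hx
    rw [mem_filter, mem_product, mem_Icc, mem_Icc] at hx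
    rw [mem_Icc]
    omega
  · intro m hm
    rw [mem_Icc] at hm
    rw [mem_filter, mem_product, mem_Icc, mem_Icc]
    simp only
    omega
  · intro x hx
    rw [mem_filter] at hx
    ext
    · rfl
    · simp only
      omega
  · intro m _
    rfl
  · intro x hx
    rw [mem_filter] at hx
    have : x.1 + h = x.2 := by omega
    rw [this]

lemma vdc (N : ℕ) (A B : ℤ) (hA : 1 ≤ A) (hB : B ≤ N) (f : ℤ → ℝ) :
    ‖ES f A B‖ ^ 2 ≤
      ∑ h ∈ Icc (-(N : ℤ)) N, ‖ES (Dl h f) (max A (A - h)) (min B (B - h))‖ := by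
  have h1 := sq_eq N A B hA hB f
  have h2 : ‖ES f A B * (starRingEnd ℂ) (ES f A B)‖ = ‖ES f A B‖ ^ 2 := by
    rw [norm_mul, RCLike.norm_conj, sq]
  rw [← h2, h1]
  exact norm_sum_le _ _

/-- `f` has constant `d`-th difference `β` (so `f` is like `β m^d / d!`) -/
def PC : ℕ → ℝ → (ℤ → ℝ) → Prop
  | 0, _, _ => False
  | 1, β, f => ∃ c : ℝ, ∀ m : ℤ, f m = m * β + c
  | (d + 2), β, f => ∀ h : ℤ, PC (d + 1) (β * h) (Dl h f)

/-- the sum of the geometric majorants -/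
def QQ (N : ℕ) : ℕ → ℝ → ℝ
  | 0, _ => 0
  | 1, β => G N β
  | (d + 2), β => ∑ h ∈ Icc (-(N : ℤ)) N, QQ N (d + 1) (β * h)

lemma QQ_nonneg (N : ℕ) : ∀ (d : ℕ) (β : ℝ), 0 ≤ QQ N d β
  | 0, _ => le_refl _
  | 1, β => G_nonneg N β
  | (d + 2), β => sum_nonneg (fun h _ => QQ_nonneg N (d + 1) (β * h))

lemma card_Icc_N (N : ℕ) : ((Icc (-(N : ℤ)) N).card : ℝ) = 2 * N + 1 := by
  rw [Int.card_Icc]
  have : ((N : ℤ) + 1 - -(N : ℤ)).toNat = 2 * N + 1 := by omega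
  rw [this]
  push_cast
  ring

lemma powsum (N : ℕ) (g : ℤ → ℝ) (hg : ∀ h, 0 ≤ g h) (d : ℕ) :
    (∑ h ∈ Icc (-(N : ℤ)) N, g h) ^ (2 ^ d) ≤
      (2 * (N : ℝ) + 1) ^ (2 ^ d - 1) * ∑ h ∈ Icc (-(N : ℤ)) N, g h ^ (2 ^ d) := by
  have h2 : 2 ^ d - 1 + 1 = 2 ^ d := Nat.sub_add_cancel Nat.one_le_two_pow
  have h1 := pow_sum_le_card_mul_sum_pow (s := Icc (-(N : ℤ)) N) (f := g)
    (fun i _ => hg i) (2 ^ d - 1)
  rw [card_Icc_N, h2] at h1
  exact h1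

/-- Weyl's inequality in terms of `QQ` -/
lemma weyl (N : ℕ) : ∀ (d : ℕ) (β : ℝ) (f : ℤ → ℝ) (A B : ℤ), 1 ≤ A → B ≤ N → PC (d + 1) β f →
    ‖ES f A B‖ ^ (2 ^ d) ≤ (2 * (N : ℝ) + 1) ^ (2 ^ d - (d + 1)) * QQ N (d + 1) β
  | 0, β, f, A, B, hA, hB, hf => by
    obtain ⟨c, hc⟩ := hf
    have h1 : ES f A B = ∑ m ∈ Icc A B, e (m * β + c) := by
      unfold ES
      apply sum_congr rfl
      intro m _
      rw [hc]
    simp only [pow_zero, pow_one, zero_add, Nat.sub_self, one_mul]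
    rw [h1]
    exact geo_Icc N β c A B hA hB
  | (d + 1), β, f, A, B, hA, hB, hf => by
    have hN : (0 : ℝ) ≤ 2 * (N : ℝ) + 1 := by positivity
    have h1 := vdc N A B hA hB f
    have h2 : ‖ES f A B‖ ^ (2 ^ (d + 1)) = (‖ES f A B‖ ^ 2) ^ (2 ^ d) := by
      rw [← pow_mul]; congr 1; rw [pow_succ]; ring
    rw [h2]
    have h3 : (‖ES f A B‖ ^ 2) ^ (2 ^ d) ≤
        (∑ h ∈ Icc (-(N : ℤ)) N, ‖ES (Dl h f) (max A (A - h)) (min B (B - h))‖) ^ (2 ^ d) :=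
      pow_le_pow_left₀ (by positivity) h1 _
    have h4 : (∑ h ∈ Icc (-(N : ℤ)) N, ‖ES (Dl h f) (max A (A - h)) (min B (B - h))‖) ^ (2 ^ d) ≤
        (2 * (N : ℝ) + 1) ^ (2 ^ d - 1) *
        ∑ h ∈ Icc (-(N : ℤ)) N, ‖ES (Dl h f) (max A (A - h)) (min B (B - h))‖ ^ (2 ^ d) := by
      exact powsum N (fun h : ℤ => ‖ES (Dl h f) (max A (A - h)) (min B (B - h))‖)
        (fun _ => norm_nonneg _) d
    have h6 : ∀ h ∈ Icc (-(N : ℤ)) N,
        ‖ES (Dl h f) (max A (A - h)) (min B (B - h))‖ ^ (2 ^ d) ≤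
        (2 * (N : ℝ) + 1) ^ (2 ^ d - (d + 1)) * QQ N (d + 1) (β * h) := by
      intro h _
      exact weyl N d (β * h) (Dl h f) _ _ (le_max_of_le_left hA) ((min_le_left _ _).trans hB) (hf h)
    have h7 : ∑ h ∈ Icc (-(N : ℤ)) N,
        ‖ES (Dl h f) (max A (A - h)) (min B (B - h))‖ ^ (2 ^ d) ≤
        (2 * (N : ℝ) + 1) ^ (2 ^ d - (d + 1)) * QQ N (d + 2) β := by
      refine (sum_le_sum h6).trans ?_
      rw [← mul_sum]
      exact le_of_eq rfl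
    have h8 : d + 1 ≤ 2 ^ d := Nat.lt_two_pow_self
    calc (‖ES f A B‖ ^ 2) ^ (2 ^ d) ≤ (2 * (N : ℝ) + 1) ^ (2 ^ d - 1) *
          ((2 * (N : ℝ) + 1) ^ (2 ^ d - (d + 1)) * QQ N (d + 2) β) :=
          (h3.trans h4).trans (mul_le_mul_of_nonneg_left h7 (by positivity))
      _ = (2 * (N : ℝ) + 1) ^ (2 ^ (d + 1) - (d + 1 + 1)) * QQ N (d + 1 + 1) β := by
          rw [← mul_assoc, ← pow_add]
          congr 2
          rw [pow_succ]
          omega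

end

end Pool.Agent.H78R2.Mont
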