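import Pool.Agent.H78R2.Mont.Blk
import Pool.Agent.H78R2.Mont.Vdc
import Pool.Agent.H510R2.Div

set_option autoImplicit false

/-! The sum `QQ`. -/

namespace Pool.Agent.H78R2.Mont

open Finset

noncomputable section

lemma nn_neg (x : ℝ) : nn (-x) = nn x := by
  unfold nn
  rw [abs_sub_round_eq_min, abs_sub_round_eq_min]
  rcases eq_or_ne (Int.fract x) 0 with h | h
  · have : Int.fract (-x) = 0 := by rwa [Int.fract_neg_eq_zero]
    rw [h, this]
  · rw [Int.fract_neg h, min_comm]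
    congr 1
    ring

lemma G_neg (N : ℕ) (x : ℝ) : G N (-x) = G N x := by
  unfold G; rw [nn_neg]

lemma G_abs (N : ℕ) (β : ℝ) (h : ℤ) (v : ℝ) : G N (β * h * v) = G N (β * (h.natAbs : ℝ) * v) := by
  rcases Int.natAbs_eq h with h1 | h1
  · have h2 : (h : ℝ) = ((h.natAbs : ℤ) : ℝ) := congrArg (Int.cast : ℤ → ℝ) h1
    rw [h2, Int.cast_natCast]
  · have h2 : (h : ℝ) = ((-(h.natAbs : ℤ) : ℤ) : ℝ) := congrArg (Int.cast : ℤ → ℝ) h1
    rw [h2, Int.cast_neg, Int.cast_natCast, ← G_neg]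
    congr 1
    ring

lemma QQ_triv (N : ℕ) : ∀ (d : ℕ) (β : ℝ), QQ N (d + 1) β ≤ (2 * (N : ℝ) + 1) ^ d * (2 * N)
  | 0, β => by
    simp only [pow_zero, one_mul]
    exact G_le N β
  | (d + 1), β => by
    have h1 : QQ N (d + 1 + 1) β = ∑ h ∈ Icc (-(N : ℤ)) N, QQ N (d + 1) (β * h) := rfl
    rw [h1]
    refine (sum_le_sum (fun (h : ℤ) _ => QQ_triv N d (β * (h : ℝ)))).trans ?_
    rw [sum_const, nsmul_eq_mul, card_Icc_N, pow_succ]
    apply le_of_eq
    ring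

/-- the divisor bound applied to double sums -/
lemma dsum (N M : ℕ) (D : ℝ) (hD : ∀ w, 1 ≤ w → w ≤ N * M → (w.divisors.card : ℝ) ≤ D)
    (g : ℕ → ℝ) (hg : ∀ w, 0 ≤ g w) :
    ∑ n ∈ Icc 1 N, ∑ v ∈ Icc 1 M, g (n * v) ≤ D * ∑ w ∈ Icc 1 (N * M), g w := by
  classical
  rw [← sum_product']
  have h1 : ∑ x ∈ Icc 1 N ×ˢ Icc 1 M, g (x.1 * x.2) =
      ∑ w ∈ Icc 1 (N * M), ∑ x ∈ (Icc 1 N ×ˢ Icc 1 M).filter (fun x => x.1 * x.2 = w),
        g (x.1 * x.2) := by
    rw [sum_fiberwise_of_maps_to]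
    intro x hx
    rw [mem_product, mem_Icc, mem_Icc] at hx
    rw [mem_Icc]
    exact ⟨Nat.mul_pos hx.1.1 hx.2.1, Nat.mul_le_mul hx.1.2 hx.2.2⟩
  rw [h1, mul_sum]
  apply sum_le_sum
  intro w hw
  rw [mem_Icc] at hw
  have h2 : ∑ x ∈ (Icc 1 N ×ˢ Icc 1 M).filter (fun x => x.1 * x.2 = w), g (x.1 * x.2) =
      ∑ x ∈ (Icc 1 N ×ˢ Icc 1 M).filter (fun x => x.1 * x.2 = w), g w := by
    apply sum_congr rfl
    intro x hx
    rw [mem_filter] at hx
    rw [hx.2]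
  rw [h2, sum_const, nsmul_eq_mul]
  apply mul_le_mul_of_nonneg_right _ (hg w)
  refine le_trans ?_ (hD w hw.1 hw.2)
  have h3 : ((Icc 1 N ×ˢ Icc 1 M).filter (fun x => x.1 * x.2 = w)).card ≤ w.divisors.card := by
    apply card_le_card_of_injOn (fun x => x.1)
    · intro x hx
      simp only [coe_filter, Set.mem_ofPred_eq] at hx
      simp only [mem_coe, Nat.mem_divisors]
      exact ⟨⟨x.2, hx.2.symm⟩, by omega⟩
    · intro x hx y hy hxy
      simp only [coe_filter, Set.mem_ofPred_eq, mem_product, mem_Icc] at hx hy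
      have h4 : x.1 = y.1 := hxy
      have h5 : x.1 * x.2 = x.1 * y.2 := by rw [hx.2]; conv_rhs => rw [h4]; rw [hy.2]
      have h6 : x.2 = y.2 := Nat.eq_of_mul_eq_mul_left (by omega) h5
      exact Prod.ext h4 h6
  exact_mod_cast h3

/-- the bound for `QQ` -/
lemma QQ_le (N : ℕ) (hN : 1 ≤ N) (K : ℕ) (D : ℝ) (hD1 : 1 ≤ D)
    (hD : ∀ w, 1 ≤ w → w ≤ N ^ K → (w.divisors.card : ℝ) ≤ D) :
    ∀ (d : ℕ) (β : ℝ), d ≤ K →
      QQ N (d + 1) β ≤ d * (2 * (N : ℝ) + 1) ^ d +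
        (2 * D) ^ d * ∑ v ∈ Icc 1 (N ^ d), G N (β * (v : ℝ))
  | 0, β, _ => by
    simp only [pow_zero, Nat.cast_zero, zero_add, one_mul, Icc_self, sum_singleton,
      Nat.cast_one, mul_one]
    exact le_refl _
  | (d + 1), β, hd => by
    have hN0 : (0 : ℝ) ≤ N := Nat.cast_nonneg _
    have h1 : QQ N (d + 1 + 1) β = ∑ h ∈ Icc (-(N : ℤ)) N, QQ N (d + 1) (β * h) := rfl
    set B : ℕ → ℝ := fun n => d * (2 * (N : ℝ) + 1) ^ d +
        (2 * D) ^ d * ∑ v ∈ Icc 1 (N ^ d), G N (β * (n : ℝ) * (v : ℝ)) with hB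
    have hB0 : ∀ n, 0 ≤ B n := by
      intro n
      rw [hB]
      have : 0 ≤ ∑ v ∈ Icc 1 (N ^ d), G N (β * (n : ℝ) * (v : ℝ)) :=
        sum_nonneg (fun _ _ => G_nonneg _ _)
      positivity
    set F : ℕ → ℝ := fun n => if n = 0 then 0 else B n with hF
    have hF0 : ∀ n, 0 ≤ F n := by
      intro n; rw [hF]; simp only; split_ifs
      · exact le_refl _
      · exact hB0 n
    have h2 : ∀ h ∈ Icc (-(N : ℤ)) N, QQ N (d + 1) (β * h) ≤
        (if h = 0 then (2 * (N : ℝ) + 1) ^ d * (2 * N) else 0) + F h.natAbs := by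
      intro h _
      by_cases h0 : h = 0
      · rw [if_pos h0]
        have := QQ_triv N d (β * h)
        have h3 := hF0 h.natAbs
        linarith
      · rw [if_neg h0, zero_add, hF]
        simp only
        rw [if_neg (by omega), hB]
        simp only
        refine (QQ_le N hN K D hD1 hD d (β * h) (by omega)).trans ?_
        apply le_of_eq
        congr 2
        apply sum_congr rfl
        intro v _
        exact G_abs N β h v
    have h3 : ∑ h ∈ Icc (-(N : ℤ)) N, QQ N (d + 1) (β * h) ≤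
        (2 * (N : ℝ) + 1) ^ d * (2 * N) + 2 * ∑ n ∈ range (N + 1), F n := by
      refine (sum_le_sum h2).trans ?_
      rw [sum_add_distrib]
      have h4 := sum_abs_le F hF0 N
      have h5 : ∑ h ∈ Icc (-(N : ℤ)) N, (if h = 0 then (2 * (N : ℝ) + 1) ^ d * (2 * N) else 0) =
          (2 * (N : ℝ) + 1) ^ d * (2 * N) := by
        rw [sum_ite_eq' (Icc (-(N : ℤ)) N) 0 (fun _ => (2 * (N : ℝ) + 1) ^ d * (2 * N))]
        rw [if_pos]
        rw [mem_Icc]
        omega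
      rw [h5]
      linarith
    have h6 : ∑ n ∈ range (N + 1), F n = ∑ n ∈ Icc 1 N, B n := by
      rw [sum_range_succ']
      have : F 0 = 0 := by rw [hF]; simp
      rw [this, add_zero]
      symm
      apply sum_bij (fun n _ => n - 1)
      · intro n hn; rw [mem_Icc] at hn; rw [mem_range]; omega
      · intro a ha b hb hab
        rw [mem_Icc] at ha hb
        have hab' : a - 1 = b - 1 := hab
        omega
      · intro b hb; rw [mem_range] at hb; exact ⟨b + 1, by rw [mem_Icc]; omega, by omega⟩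
      · intro n hn
        rw [mem_Icc] at hn
        have : n - 1 + 1 = n := by omega
        rw [this, hF]
        simp only
        rw [if_neg (by omega)]
    have h7 : ∑ n ∈ Icc 1 N, B n ≤ N * (d * (2 * (N : ℝ) + 1) ^ d) +
        (2 * D) ^ d * (D * ∑ w ∈ Icc 1 (N ^ (d + 1)), G N (β * (w : ℝ))) := by
      rw [hB]
      simp only
      rw [sum_add_distrib, sum_const, nsmul_eq_mul, Nat.card_Icc, ← mul_sum]
      have h8 := dsum N (N ^ d) D (by
        intro w hw1 hw2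
        apply hD w hw1
        calc w ≤ N * N ^ d := hw2
          _ = N ^ (d + 1) := by ring
          _ ≤ N ^ K := Nat.pow_le_pow_right hN hd) (fun w => G N (β * (w : ℝ)))
        (fun _ => G_nonneg _ _)
      have h9 : ∑ n ∈ Icc 1 N, ∑ v ∈ Icc 1 (N ^ d), G N (β * (n : ℝ) * (v : ℝ)) =
          ∑ n ∈ Icc 1 N, ∑ v ∈ Icc 1 (N ^ d), G N (β * ((n * v : ℕ) : ℝ)) := by
        apply sum_congr rfl
        intro n _
        apply sum_congr rfl
        intro v _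
        push_cast
        rw [mul_assoc]
      rw [h9]
      have h10 : N * N ^ d = N ^ (d + 1) := by ring
      rw [h10] at h8
      have h11 : (0 : ℝ) ≤ (2 * D) ^ d := by positivity
      have h12 := mul_le_mul_of_nonneg_left h8 h11
      have h13 : ((N + 1 - 1 : ℕ) : ℝ) = N := by
        rw [Nat.add_sub_cancel]
      rw [h13]
      linarith
    rw [h1]
    refine h3.trans ?_
    rw [h6]
    have h14 : (2 * (N : ℝ) + 1) ^ d * (2 * N) + 2 * (N * (d * (2 * (N : ℝ) + 1) ^ d)) ≤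
        ((d + 1 : ℕ) : ℝ) * (2 * (N : ℝ) + 1) ^ (d + 1) := by
      rw [pow_succ]
      push_cast
      have h15 : (0 : ℝ) ≤ (2 * (N : ℝ) + 1) ^ d := by positivity
      have h16 : (0 : ℝ) ≤ d := Nat.cast_nonneg _
      nlinarith [mul_nonneg h15 h16]
    have h17 : (2 * D) ^ (d + 1) * ∑ v ∈ Icc 1 (N ^ (d + 1)), G N (β * (v : ℝ)) =
        2 * ((2 * D) ^ d * (D * ∑ w ∈ Icc 1 (N ^ (d + 1)), G N (β * (w : ℝ)))) := by
      rw [pow_succ]; ring
    rw [h17]
    linarith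

/-- the final bound for `QQ N k (k! t)` -/
lemma QQ_main (N : ℕ) (hN : 1 ≤ N) (K : ℕ) (hK : 1 ≤ K) (D : ℝ) (hD1 : 1 ≤ D)
    (hD : ∀ w, 1 ≤ w → w ≤ N ^ K → (w.divisors.card : ℝ) ≤ D) (t : ℝ) (a q : ℕ) (hq : 1 ≤ q)
    (hqN : q ≤ N) (hc : Nat.Coprime a q)
    (ht : |t - (a : ℝ) / (q : ℝ)| ≤ 1 / (q : ℝ) ^ 2) :
    QQ N (K + 1) (((K + 1).factorial : ℝ) * t) ≤
      (2 * D) ^ K * (36 * (((K + 1).factorial : ℝ) + K + 1) * 3 ^ K * (N : ℝ) ^ (K + 1) *
        (1 / (q : ℝ) + 1 / N) * (1 + Real.log N)) := by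
  have hq0 : (0 : ℝ) < q := by exact_mod_cast hq
  have hN1 : (1 : ℝ) ≤ N := by exact_mod_cast hN
  have hqN' : (q : ℝ) ≤ N := by exact_mod_cast hqN
  have h1 := QQ_le N hN K D hD1 hD K (((K + 1).factorial : ℝ) * t) (le_refl _)
  set f := (K + 1).factorial with hf
  have hf1 : 1 ≤ f := Nat.factorial_pos _
  set J := f * N ^ K / q + 1 with hJ
  have h2 : ∑ v ∈ Icc 1 (N ^ K), G N ((f : ℝ) * t * (v : ℝ)) ≤
      ∑ u ∈ range (q * J), G N (t * (u : ℝ)) := by
    have h3 : ∑ v ∈ Icc 1 (N ^ K), G N ((f : ℝ) * t * (v : ℝ)) =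
        ∑ u ∈ (Icc 1 (N ^ K)).image (fun v => f * v), G N (t * (u : ℝ)) := by
      rw [sum_image]
      · apply sum_congr rfl
        intro v _
        congr 1
        push_cast
        ring
      · intro x _ y _ hxy
        exact Nat.eq_of_mul_eq_mul_left hf1 hxy
    rw [h3]
    apply sum_le_sum_of_subset_of_nonneg
    · intro u hu
      rw [mem_image] at hu
      obtain ⟨v, hv, rfl⟩ := hu
      rw [mem_Icc] at hv
      rw [mem_range]
      calc f * v ≤ f * N ^ K := Nat.mul_le_mul_left _ hv.2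
        _ < q * J := by rw [hJ]; exact Nat.lt_mul_div_succ _ hq
    · intro _ _ _
      exact G_nonneg _ _
  have h4 := blocks N t a q hq hc ht J
  have hlog0 : 0 ≤ Real.log q := Real.log_natCast_nonneg q
  have hlog : Real.log q ≤ Real.log N := Real.log_le_log hq0 hqN'
  set L := 1 + Real.log N with hL
  have hL1 : 1 ≤ L := by
    have := Real.log_natCast_nonneg N
    linarith
  have hNK : (N : ℝ) ≤ (N : ℝ) ^ K := le_self_pow₀ hN1 (by omega)
  have hf1' : (1 : ℝ) ≤ f := by exact_mod_cast hf1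
  have h5 : (J : ℝ) ≤ 2 * f * (N : ℝ) ^ K / q := by
    have h6 : ((f * N ^ K / q : ℕ) : ℝ) ≤ ((f * N ^ K : ℕ) : ℝ) / q := Nat.cast_div_le
    rw [hJ]
    push_cast at h6 ⊢
    have h7 : (1 : ℝ) ≤ f * (N : ℝ) ^ K / q := by
      rw [le_div_iff₀ hq0]
      nlinarith
    have h8 : 2 * (f : ℝ) * (N : ℝ) ^ K / q = f * (N : ℝ) ^ K / q + f * (N : ℝ) ^ K / q := by ring
    rw [h8]
    linarith
  have h9 : 12 * (N : ℝ) + 12 * (q * (1 + Real.log q)) ≤ 12 * (N + q) * L := by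
    nlinarith
  have h10 : ∑ u ∈ range (q * J), G N (t * (u : ℝ)) ≤
      24 * f * (N : ℝ) ^ (K + 1) * (1 / (q : ℝ) + 1 / N) * L := by
    refine h4.trans ?_
    calc (J : ℝ) * (12 * N + 12 * (q * (1 + Real.log q))) ≤
          (2 * f * (N : ℝ) ^ K / q) * (12 * (N + q) * L) :=
          mul_le_mul h5 h9 (by positivity) (by positivity)
      _ = 24 * f * (N : ℝ) ^ (K + 1) * (1 / (q : ℝ) + 1 / N) * L := by
          rw [pow_succ]; field_simp; ring
  have h11 : (K : ℝ) * (2 * (N : ℝ) + 1) ^ K ≤ K * 3 ^ K * (N : ℝ) ^ (K + 1) *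
        (1 / (q : ℝ) + 1 / N) * L := by
    have h12 : (2 * (N : ℝ) + 1) ^ K ≤ (3 * N) ^ K := pow_le_pow_left₀ (by positivity) (by linarith) _
    rw [mul_pow] at h12
    have h13 : (N : ℝ) ^ K ≤ (N : ℝ) ^ (K + 1) * (1 / (q : ℝ) + 1 / N) * L := by
      have h14 : (N : ℝ) ^ (K + 1) * (1 / (N : ℝ)) = (N : ℝ) ^ K := by
        rw [pow_succ]; field_simp
      have h15 : (N : ℝ) ^ K ≤ (N : ℝ) ^ (K + 1) * (1 / (q : ℝ) + 1 / N) := by
        rw [mul_add, h14]
        have : 0 ≤ (N : ℝ) ^ (K + 1) * (1 / (q : ℝ)) := by positivity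
        linarith
      calc (N : ℝ) ^ K ≤ (N : ℝ) ^ (K + 1) * (1 / (q : ℝ) + 1 / N) := h15
        _ ≤ (N : ℝ) ^ (K + 1) * (1 / (q : ℝ) + 1 / N) * L :=
            le_mul_of_one_le_right (by positivity) hL1
    calc (K : ℝ) * (2 * (N : ℝ) + 1) ^ K ≤ K * (3 ^ K * (N : ℝ) ^ K) :=
          mul_le_mul_of_nonneg_left h12 (Nat.cast_nonneg _)
      _ ≤ K * (3 ^ K * ((N : ℝ) ^ (K + 1) * (1 / (q : ℝ) + 1 / N) * L)) := by gcongr
      _ = _ := by ring
  have hDK : 1 ≤ (2 * D) ^ K := one_le_pow₀ (by linarith)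
  set Y := (N : ℝ) ^ (K + 1) * (1 / (q : ℝ) + 1 / N) * L with hY
  have hY0 : 0 ≤ Y := by positivity
  have h16 : (K : ℝ) * (2 * (N : ℝ) + 1) ^ K ≤ K * 3 ^ K * Y := by rw [hY]; linarith
  have h17 : ∑ v ∈ Icc 1 (N ^ K), G N ((f : ℝ) * t * (v : ℝ)) ≤ 24 * f * Y := by
    rw [hY]; linarith
  have h18 : (1 : ℝ) ≤ 3 ^ K := one_le_pow₀ (by norm_num)
  calc QQ N (K + 1) ((f : ℝ) * t) ≤ K * 3 ^ K * Y + (2 * D) ^ K * (24 * f * Y) := by
        refine h1.trans ?_
        have := mul_le_mul_of_nonneg_left h17 (show (0 : ℝ) ≤ (2 * D) ^ K by positivity)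
        linarith
    _ ≤ (2 * D) ^ K * (K * 3 ^ K * Y) + (2 * D) ^ K * (24 * f * 3 ^ K * Y) := by
        have h19 : (K : ℝ) * 3 ^ K * Y ≤ (2 * D) ^ K * (K * 3 ^ K * Y) :=
          le_mul_of_one_le_left (by positivity) hDK
        have h20 : 24 * (f : ℝ) * Y ≤ 24 * f * 3 ^ K * Y := by
          apply mul_le_mul_of_nonneg_right _ hY0
          nlinarith
        have h21 := mul_le_mul_of_nonneg_left h20 (show (0 : ℝ) ≤ (2 * D) ^ K by positivity)
        linarith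
    _ ≤ (2 * D) ^ K * (36 * ((f : ℝ) + K + 1) * 3 ^ K * Y) := by
        rw [← mul_add]
        apply mul_le_mul_of_nonneg_left _ (by positivity)
        have h22 : (0 : ℝ) ≤ K := Nat.cast_nonneg _
        have h23 : (0 : ℝ) ≤ 3 ^ K * Y := by positivity
        nlinarith [mul_nonneg h22 h23, mul_nonneg (show (0:ℝ) ≤ f by positivity) h23]
    _ = _ := by rw [hY]; ring

end

end Pool.Agent.H78R2.Mont
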