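import Pool.Agent.H78R2.Mont.Par

set_option autoImplicit false

/-! Assembly. -/

namespace Pool.Agent.H78R2.Mont

open Finset MeasureTheory

noncomputable section

/-- the constants -/
lemma consts (K : ℕ) (ε : ℝ) (hε : 0 < ε) (c : ℝ) (hc : 1 ≤ c) :
    ∃ C : ℝ, 1 ≤ C ∧ ∀ N : ℕ, 1 ≤ N → ∃ D : ℝ, 1 ≤ D ∧
      (∀ w, 1 ≤ w → w ≤ N ^ K → (w.divisors.card : ℝ) ≤ D) ∧
      (2 * D) ^ K * c * (1 + Real.log N) ≤ C * (N : ℝ) ^ ε := by
  set δ : ℝ := ε / (K ^ 2 + 1) with hδ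
  have hK0 : (0 : ℝ) < (K : ℝ) ^ 2 + 1 := by positivity
  have hδ0 : 0 < δ := by positivity
  obtain ⟨C1, hC1, hdiv⟩ := Pool.Agent.H510R2.divisor_bound δ hδ0
  set C2 := max 1 C1 with hC2
  have hC21 : 1 ≤ C2 := le_max_left _ _
  refine ⟨(2 * C2) ^ K * c * (1 + 1 / δ), ?_, ?_⟩
  · have h1 : (1 : ℝ) ≤ (2 * C2) ^ K := one_le_pow₀ (by linarith)
    have h2 : (1 : ℝ) ≤ 1 + 1 / δ := by
      have : 0 < 1 / δ := by positivity
      linarith
    have h3 : 1 ≤ (2 * C2) ^ K * c := one_le_mul_of_one_le_of_one_le h1 hc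
    exact one_le_mul_of_one_le_of_one_le h3 h2
  · intro N hN
    have hN1 : (1 : ℝ) ≤ N := by exact_mod_cast hN
    have hN0 : (0 : ℝ) < N := by linarith
    have hNd : (1 : ℝ) ≤ (N : ℝ) ^ (K * δ) := Real.one_le_rpow hN1 (by positivity)
    refine ⟨C2 * (N : ℝ) ^ (K * δ), one_le_mul_of_one_le_of_one_le hC21 hNd, ?_, ?_⟩
    · intro w hw1 hw2
      refine (hdiv w hw1).trans ?_
      have h1 : ((w : ℕ) : ℝ) ≤ (N : ℝ) ^ K := by exact_mod_cast hw2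
      have h2 : (w : ℝ) ^ δ ≤ (N : ℝ) ^ (K * δ) := by
        refine (Real.rpow_le_rpow (Nat.cast_nonneg _) h1 hδ0.le).trans (le_of_eq ?_)
        rw [← Real.rpow_natCast, ← Real.rpow_mul hN0.le]
      exact mul_le_mul (le_max_right _ _) h2 (by positivity) (by positivity)
    · have h1 : 1 + Real.log N ≤ (1 + 1 / δ) * (N : ℝ) ^ δ := by
        have h2 := Real.log_le_rpow_div hN0.le hδ0
        have h3 : (1 : ℝ) ≤ (N : ℝ) ^ δ := Real.one_le_rpow hN1 hδ0.le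
        calc 1 + Real.log N ≤ (N : ℝ) ^ δ + (N : ℝ) ^ δ / δ := add_le_add h3 h2
          _ = _ := by ring
      have h4 : (2 * (C2 * (N : ℝ) ^ (K * δ))) ^ K = (2 * C2) ^ K * (N : ℝ) ^ (K * δ * K) := by
        rw [← mul_assoc, mul_pow]
        congr 1
        rw [← Real.rpow_natCast, ← Real.rpow_mul hN0.le]
      rw [h4]
      have h5 : (N : ℝ) ^ (K * δ * K) * (N : ℝ) ^ δ = (N : ℝ) ^ ε := by
        rw [← Real.rpow_add hN0]
        congr 1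
        rw [hδ]
        field_simp
      calc (2 * C2) ^ K * (N : ℝ) ^ (K * δ * K) * c * (1 + Real.log N) ≤
            (2 * C2) ^ K * (N : ℝ) ^ (K * δ * K) * c * ((1 + 1 / δ) * (N : ℝ) ^ δ) := by
            apply mul_le_mul_of_nonneg_left h1
            have : 0 ≤ c := by linarith
            positivity
        _ = (2 * C2) ^ K * c * (1 + 1 / δ) * ((N : ℝ) ^ (K * δ * K) * (N : ℝ) ^ δ) := by ring
        _ = _ := by rw [h5]

/-- the fourth moment bound -/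
theorem moment4 (j : ℕ) (ε : ℝ) (hε : 0 < ε) : ∃ C : ℝ, 1 ≤ C ∧ ∀ N : ℕ, 1 ≤ N →
    ∀ f : Polynomial ℝ, f.natDegree ≤ j + 3 → ∀ a q : ℕ, 1 ≤ q → q ≤ N → Nat.Coprime a q →
      |f.coeff (j + 3) - (a : ℝ) / (q : ℝ)| ≤ 1 / (q : ℝ) ^ 2 →
      MM f N ≤ C * (N : ℝ) ^ (3 + ε) * (1 / (q : ℝ) + 1 / N) ^ (1 / (2 : ℝ) ^ j) := by
  set K := j + 2 with hK
  set c : ℝ := 36 * (((K + 1).factorial : ℝ) + K + 1) * 3 ^ K with hc
  have hc1 : 1 ≤ c := by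
    have h1 : (1 : ℝ) ≤ 3 ^ K := one_le_pow₀ (by norm_num)
    have h2 : (0 : ℝ) ≤ (K + 1).factorial := Nat.cast_nonneg _
    have h3 : (0 : ℝ) ≤ K := Nat.cast_nonneg _
    rw [hc]
    nlinarith
  obtain ⟨C0, hC0, hcon⟩ := consts K ε hε c hc1
  refine ⟨27 * C0, by linarith, ?_⟩
  intro N hN f hf a q hq hqN hcop ht
  obtain ⟨D, hD1, hD, hDC⟩ := hcon N hN
  have hN1 : (1 : ℝ) ≤ N := by exact_mod_cast hN
  have hN0 : (0 : ℝ) < N := by linarith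
  have hq0 : (0 : ℝ) < q := by exact_mod_cast hq
  set Δ : ℝ := 1 / (q : ℝ) + 1 / N with hΔ
  have hΔ0 : 0 < Δ := by positivity
  have h1 := MM_pow j N f hf
  have h2 := QQ_main N hN K (by omega) D hD1 hD (f.coeff (j + 3)) a q hq hqN hcop ht
  have h3 : QQ N (j + 3) (((j + 3).factorial : ℝ) * f.coeff (j + 3)) ≤ (N : ℝ) ^ (j + 3) * (C0 * (N : ℝ) ^ ε * Δ) := by
    have h4 : K + 1 = j + 3 := by omega
    rw [h4] at h2
    rw [hc, h4] at hDC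
    refine h2.trans ?_
    have h5 := mul_le_mul_of_nonneg_left hDC (show (0 : ℝ) ≤ (N : ℝ) ^ (j + 3) * Δ by positivity)
    calc _ = (N : ℝ) ^ (j + 3) * Δ * ((2 * D) ^ K * (36 * (((j + 3).factorial : ℝ) + K + 1) * 3 ^ K) *
          (1 + Real.log N)) := by ring
      _ ≤ _ := h5
      _ = _ := by ring
  have h6 : (2 * (N : ℝ) + 1) ^ (3 * 2 ^ j - (j + 3)) ≤ (3 : ℝ) ^ (3 * 2 ^ j) * (N : ℝ) ^ (3 * 2 ^ j - (j + 3)) := by
    calc (2 * (N : ℝ) + 1) ^ (3 * 2 ^ j - (j + 3)) ≤ (3 * N) ^ (3 * 2 ^ j - (j + 3)) :=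
          pow_le_pow_left₀ (by positivity) (by linarith) _
      _ = 3 ^ (3 * 2 ^ j - (j + 3)) * (N : ℝ) ^ (3 * 2 ^ j - (j + 3)) := mul_pow _ _ _
      _ ≤ _ := by
          apply mul_le_mul_of_nonneg_right _ (by positivity)
          exact pow_le_pow_right₀ (by norm_num) (Nat.sub_le _ _)
  have h7 : j + 3 ≤ 3 * 2 ^ j := by
    have : j + 1 ≤ 2 ^ j := Nat.lt_two_pow_self
    omega
  set Z : ℝ := C0 * (N : ℝ) ^ ε * Δ with hZ
  have hZ0 : 0 ≤ Z := by positivity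
  have h8 : MM f N ^ (2 ^ j) ≤ (27 * (N : ℝ) ^ 3) ^ (2 ^ j) * Z := by
    calc MM f N ^ (2 ^ j) ≤ ((3 : ℝ) ^ (3 * 2 ^ j) * (N : ℝ) ^ (3 * 2 ^ j - (j + 3))) *
          ((N : ℝ) ^ (j + 3) * Z) :=
          h1.trans (mul_le_mul h6 h3 (QQ_nonneg _ _ _) (by positivity))
      _ = (3 : ℝ) ^ (3 * 2 ^ j) * ((N : ℝ) ^ (3 * 2 ^ j - (j + 3)) * (N : ℝ) ^ (j + 3)) * Z := by ring
      _ = (3 : ℝ) ^ (3 * 2 ^ j) * (N : ℝ) ^ (3 * 2 ^ j) * Z := by
          rw [← pow_add, Nat.sub_add_cancel h7]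
      _ = _ := by
          rw [pow_mul, pow_mul, ← mul_pow]
          norm_num
  -- take roots
  have hM0 := MM_nonneg f N
  have hpow : ((2 ^ j : ℕ) : ℝ) = (2 : ℝ) ^ j := by push_cast; rfl
  have hs : (0 : ℝ) < 1 / (2 : ℝ) ^ j := by positivity
  have hs1 : 1 / (2 : ℝ) ^ j ≤ 1 := by
    rw [div_le_one (by positivity)]
    exact one_le_pow₀ (by norm_num)
  have root : ∀ x : ℝ, 0 ≤ x → (x ^ (2 ^ j)) ^ (1 / (2 : ℝ) ^ j) = x := by
    intro x hx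
    rw [← Real.rpow_natCast, ← Real.rpow_mul hx, hpow, mul_one_div_cancel (by positivity),
      Real.rpow_one]
  have h9 := Real.rpow_le_rpow (by positivity) h8 hs.le
  rw [root _ hM0, Real.mul_rpow (by positivity) hZ0, root _ (by positivity)] at h9
  have h10 : Z ^ (1 / (2 : ℝ) ^ j) ≤ C0 * (N : ℝ) ^ ε * Δ ^ (1 / (2 : ℝ) ^ j) := by
    rw [hZ, Real.mul_rpow (by positivity) hΔ0.le]
    apply mul_le_mul_of_nonneg_right _ (by positivity)
    have h11 : 1 ≤ C0 * (N : ℝ) ^ ε :=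
      one_le_mul_of_one_le_of_one_le hC0 (Real.one_le_rpow hN1 hε.le)
    calc (C0 * (N : ℝ) ^ ε) ^ (1 / (2 : ℝ) ^ j) ≤ (C0 * (N : ℝ) ^ ε) ^ (1 : ℝ) :=
          Real.rpow_le_rpow_of_exponent_le h11 hs1
      _ = _ := Real.rpow_one _
  have h12 : (N : ℝ) ^ (3 + ε) = (N : ℝ) ^ 3 * (N : ℝ) ^ ε := by
    rw [Real.rpow_add hN0]
    congr 1
    exact_mod_cast Real.rpow_natCast (N : ℝ) 3
  calc MM f N ≤ 27 * (N : ℝ) ^ 3 * (C0 * (N : ℝ) ^ ε * Δ ^ (1 / (2 : ℝ) ^ j)) :=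
        h9.trans (mul_le_mul_of_nonneg_left h10 (by positivity))
    _ = _ := by rw [h12]; ring

/-- the `L^p` bound -/
theorem lp (j : ℕ) (ε : ℝ) (hε : 0 < ε) (p : ℝ)
    (hp : 1 / p = 1 / ((j + 3 : ℕ) : ℝ) - 1 / (2 : ℝ) ^ (j + 2)) :
    ∃ C : ℝ, 1 ≤ C ∧ ∀ N : ℕ, 1 ≤ N →
    ∀ f : Polynomial ℝ, f.natDegree ≤ j + 3 → ∀ a q : ℕ, 1 ≤ q → q ≤ N → Nat.Coprime a q →
      |f.coeff (j + 3) - (a : ℝ) / (q : ℝ)| ≤ 1 / (q : ℝ) ^ 2 →
      ∫ ξ in (0 : ℝ)..1, ‖SS f N ξ‖ ^ p ≤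
        (C * (N : ℝ) ^ (1 + ε) * (1 / (q : ℝ) + 1 / N + (q : ℝ) / (N : ℝ) ^ (j + 3)) ^
          (1 / ((j + 3 : ℕ) : ℝ))) ^ p := by
  obtain ⟨C, hC, hM⟩ := moment4 j ε hε
  set k : ℝ := ((j + 3 : ℕ) : ℝ) with hk
  have hk3 : (3 : ℝ) ≤ k := by rw [hk]; push_cast; have : (0 : ℝ) ≤ j := Nat.cast_nonneg _; linarith
  set σ : ℝ := 1 / (2 : ℝ) ^ (j + 2) with hσ
  have hσ0 : 0 < σ := by positivity
  -- p ≥ 4
  have hpinv : 0 < 1 / p := by
    rw [hp, sub_pos]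
    apply one_div_lt_one_div_of_lt (by linarith)
    rw [hk]
    have h1 : j + 3 < 2 ^ (j + 2) := by
      have : j + 1 ≤ 2 ^ j := Nat.lt_two_pow_self
      rw [pow_add]
      omega
    exact_mod_cast h1
  have hp0 : 0 < p := by
    rwa [one_div_pos] at hpinv
  have hp4 : 4 ≤ p := by
    have h1 : 1 / p ≤ 1 / 4 := by
      rw [hp]
      rcases Nat.eq_zero_or_pos j with h | h
      · subst h
        rw [hk, hσ]
        norm_num
      · have h2 : (4 : ℝ) ≤ k := by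
          rw [hk]; push_cast
          have : (1 : ℝ) ≤ j := by exact_mod_cast h
          linarith
        have h3 : 1 / k ≤ 1 / 4 := one_div_le_one_div_of_le (by norm_num) h2
        linarith
    have h2 := (one_div_le_one_div hp0 (by norm_num : (0 : ℝ) < 4)).1 h1
    exact h2
  have hpk : p / k = 1 + p * σ := by
    have h1 : p * (1 / p) = 1 := mul_one_div_cancel hp0.ne'
    rw [hp] at h1
    have h2 : p * (1 / k - σ) = p / k - p * σ := by ring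
    linarith
  refine ⟨3 * C, by linarith, ?_⟩
  intro N hN f hf a q hq hqN hcop ht
  have hM1 := hM N hN f hf a q hq hqN hcop ht
  have hN1 : (1 : ℝ) ≤ N := by exact_mod_cast hN
  have hN0 : (0 : ℝ) < N := by linarith
  have hq0 : (0 : ℝ) < q := by exact_mod_cast hq
  set Δ : ℝ := 1 / (q : ℝ) + 1 / N with hΔ
  have hΔ0 : 0 < Δ := by positivity
  have hM0 := MM_nonneg f N
  set M := MM f N with hMdef
  set W : ℝ := (2 * (N : ℝ) + 1) * M with hW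
  have hW0 : 0 ≤ W := by positivity
  have hr : 0 ≤ p / 4 - 1 := by linarith
  have hpt : ∀ ξ : ℝ, ‖SS f N ξ‖ ^ p ≤ W ^ (p / 4 - 1) * ‖SS f N ξ‖ ^ 4 := by
    intro ξ
    set x := ‖SS f N ξ‖ with hx
    have hx0 : 0 ≤ x := norm_nonneg _
    have h1 : x ^ p = (x ^ 4) ^ (p / 4 - 1) * x ^ 4 := by
      have h2 : (x ^ 4) ^ (p / 4 - 1 + 1) = (x ^ 4) ^ (p / 4 - 1) * x ^ 4 :=
        Real.rpow_add_one' (by positivity) (by linarith)
      rw [← h2]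
      have h3 : (x ^ 4 : ℝ) = x ^ (4 : ℝ) := by
        rw [← Real.rpow_natCast]; norm_num
      rw [h3, ← Real.rpow_mul hx0]
      congr 1
      ring
    rw [h1]
    apply mul_le_mul_of_nonneg_right _ (by positivity)
    exact Real.rpow_le_rpow (by positivity) (sup4 f N ξ) hr
  have hcont := continuous_SS f N
  have hint : ∫ ξ in (0 : ℝ)..1, ‖SS f N ξ‖ ^ p ≤ W ^ (p / 4 - 1) * M := by
    have h1 : ∫ ξ in (0 : ℝ)..1, ‖SS f N ξ‖ ^ p ≤
        ∫ ξ in (0 : ℝ)..1, W ^ (p / 4 - 1) * ‖SS f N ξ‖ ^ 4 := by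
      apply intervalIntegral.integral_mono_on (by norm_num)
      · apply Continuous.intervalIntegrable
        exact hcont.norm.rpow_const (fun _ => Or.inr hp0.le)
      · apply Continuous.intervalIntegrable
        exact continuous_const.mul (hcont.norm.pow 4)
      · intro ξ _
        exact hpt ξ
    rw [intervalIntegral.integral_const_mul, fourth] at h1
    exact h1
  -- bound W and M
  set B : ℝ := C * (N : ℝ) ^ (3 + ε) * Δ ^ (1 / (2 : ℝ) ^ j) with hB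
  have hB0 : 0 < B := by positivity
  have h1 : W ≤ 3 * N * B := by
    rw [hW]
    calc (2 * (N : ℝ) + 1) * M ≤ (3 * N) * B :=
          mul_le_mul (by linarith) hM1 hM0 (by positivity)
      _ = _ := by ring
  have h2 : W ^ (p / 4 - 1) * M ≤ (3 * N * B) ^ (p / 4 - 1) * B :=
    mul_le_mul (Real.rpow_le_rpow hW0 h1 hr) hM1 hM0 (by positivity)
  have h3 : (3 * N * B) ^ (p / 4 - 1) * B ≤ (3 * N * B) ^ (p / 4) * Δ := by
    have h4 : (3 * N * B) ^ (p / 4) = (3 * N * B) ^ (p / 4 - 1) * (3 * N * B) := by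
      have := Real.rpow_add_one (show (3 * N * B) ≠ 0 by positivity) (p / 4 - 1)
      rw [← this]; congr 1; ring
    rw [h4]
    have h5 : 1 ≤ 3 * N * Δ := by
      have h6 : (N : ℝ) * (1 / N) = 1 := by field_simp
      have h7 : (0 : ℝ) ≤ N * (1 / q) := by positivity
      rw [hΔ]
      nlinarith
    calc (3 * N * B) ^ (p / 4 - 1) * B = (3 * N * B) ^ (p / 4 - 1) * B * 1 := by ring
      _ ≤ (3 * N * B) ^ (p / 4 - 1) * B * (3 * N * Δ) :=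
          mul_le_mul_of_nonneg_left h5 (by positivity)
      _ = _ := by ring
  have h8 : (3 * N * B) ^ (p / 4) * Δ =
      ((3 * C) ^ (1 / 4 : ℝ) * (N : ℝ) ^ (1 + ε / 4) * Δ ^ (1 / k)) ^ p := by
    have e1 : 3 * N * B = (3 * C) * (N : ℝ) ^ (4 + ε) * Δ ^ (1 / (2 : ℝ) ^ j) := by
      rw [hB]
      have : (N : ℝ) ^ (4 + ε) = N * (N : ℝ) ^ (3 + ε) := by
        rw [show (4 : ℝ) + ε = 1 + (3 + ε) by ring, Real.rpow_add hN0, Real.rpow_one]
      rw [this]; ring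
    have e0 : (0 : ℝ) ≤ 3 * C := by linarith
    have lhs : ((3 * C) * (N : ℝ) ^ (4 + ε) * Δ ^ (1 / (2 : ℝ) ^ j)) ^ (p / 4) =
        (3 * C) ^ (p / 4) * (N : ℝ) ^ ((4 + ε) * (p / 4)) * Δ ^ (1 / (2 : ℝ) ^ j * (p / 4)) := by
      rw [Real.mul_rpow (x := (3 * C) * (N : ℝ) ^ (4 + ε)) (by positivity) (by positivity),
        Real.mul_rpow (x := 3 * C) e0 (by positivity), Real.rpow_mul hN0.le,
        Real.rpow_mul hΔ0.le]
    have rhs : ((3 * C) ^ (1 / 4 : ℝ) * (N : ℝ) ^ (1 + ε / 4) * Δ ^ (1 / k)) ^ p =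
        (3 * C) ^ ((1 / 4 : ℝ) * p) * (N : ℝ) ^ ((1 + ε / 4) * p) * Δ ^ (1 / k * p) := by
      rw [Real.mul_rpow (x := (3 * C) ^ (1 / 4 : ℝ) * (N : ℝ) ^ (1 + ε / 4)) (by positivity)
        (by positivity), Real.mul_rpow (x := (3 * C) ^ (1 / 4 : ℝ)) (by positivity) (by positivity),
        Real.rpow_mul hN0.le, Real.rpow_mul hΔ0.le, Real.rpow_mul e0]
    rw [e1, lhs, rhs]
    have e2 : 1 / (2 : ℝ) ^ j * (p / 4) = p * σ := by
      rw [hσ, pow_add]; field_simp; norm_num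
    have e3 : Δ ^ (1 / (2 : ℝ) ^ j * (p / 4)) * Δ = Δ ^ (1 / k * p) := by
      rw [e2]
      have : 1 / k * p = p * σ + 1 := by
        have : 1 / k * p = p / k := by ring
        rw [this, hpk]; ring
      rw [this, Real.rpow_add hΔ0, Real.rpow_one]
    rw [mul_assoc, e3]
    have e4 : (4 + ε) * (p / 4) = (1 + ε / 4) * p := by ring
    have e5 : (1 / 4 : ℝ) * p = p / 4 := by ring
    rw [e4, e5]
  refine (hint.trans (h2.trans h3)).trans ?_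
  rw [h8]
  apply Real.rpow_le_rpow (by positivity) _ hp0.le
  have e6 : (3 * C) ^ (1 / 4 : ℝ) ≤ 3 * C := by
    calc (3 * C) ^ (1 / 4 : ℝ) ≤ (3 * C) ^ (1 : ℝ) :=
          Real.rpow_le_rpow_of_exponent_le (by linarith) (by norm_num)
      _ = _ := Real.rpow_one _
  have e7 : (N : ℝ) ^ (1 + ε / 4) ≤ (N : ℝ) ^ (1 + ε) :=
    Real.rpow_le_rpow_of_exponent_le hN1 (by linarith)
  have e8 : Δ ^ (1 / k) ≤ (Δ + (q : ℝ) / (N : ℝ) ^ (j + 3)) ^ (1 / k) := by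
    apply Real.rpow_le_rpow hΔ0.le _ (by positivity)
    have : (0 : ℝ) ≤ (q : ℝ) / (N : ℝ) ^ (j + 3) := by positivity
    linarith
  gcongr

end

end Pool.Agent.H78R2.Mont
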