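import Pool.Agent.H78R2.Mont.Fin

set_option autoImplicit false

/-! The bound for all `p ≥ 4`. -/

namespace Pool.Agent.H78R2.Mont

open Finset MeasureTheory

noncomputable section

/-- the `L^p` bound, `p ≥ 4` -/
theorem lpg (j : ℕ) (ε : ℝ) (hε : 0 < ε) :
    ∃ C : ℝ, 1 ≤ C ∧ ∀ N : ℕ, 1 ≤ N →
    ∀ f : Polynomial ℝ, f.natDegree ≤ j + 3 → ∀ a q : ℕ, 1 ≤ q → q ≤ N → Nat.Coprime a q →
      |f.coeff (j + 3) - (a : ℝ) / (q : ℝ)| ≤ 1 / (q : ℝ) ^ 2 → ∀ p : ℝ, 4 ≤ p →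
      ∫ ξ in (0 : ℝ)..1, ‖SS f N ξ‖ ^ p ≤
        (C * (N : ℝ) ^ (1 - 1 / p + ε) * (1 / (q : ℝ) + 1 / N) ^ (1 / (2 : ℝ) ^ (j + 2))) ^ p := by
  obtain ⟨C, hC, hM⟩ := moment4 j ε hε
  set σ : ℝ := 1 / (2 : ℝ) ^ (j + 2) with hσ
  have hσ0 : 0 < σ := by positivity
  refine ⟨3 * C, by linarith, ?_⟩
  intro N hN f hf a q hq hqN hcop ht p hp4
  have hp0 : 0 < p := by linarith
  have hM1 := hM N hN f hf a q hq hqN hcop ht
  have hN1 : (1 : ℝ) ≤ N := by exact_mod_cast hN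
  have hN0 : (0 : ℝ) < N := by linarith
  have hq0 : (0 : ℝ) < q := by exact_mod_cast hq
  set Δ : ℝ := 1 / (q : ℝ) + 1 / N with hΔ
  have hΔ0 : 0 < Δ := by positivity
  have hM0 := MM_nonneg f N
  set M := MM f N with hMdef
  set W : ℝ := (2 * (N : ℝ) + 1) * M with hW
  have hW0 : 0 ≤ W := by positivity
  have hr : 0 ≤ p / 4 - 1 := by linarith
  have hpt : ∀ ξ : ℝ, ‖SS f N ξ‖ ^ p ≤ W ^ (p / 4 - 1) * ‖SS f N ξ‖ ^ 4 := by
    intro ξ
    set x := ‖SS f N ξ‖ with hx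
    have hx0 : 0 ≤ x := norm_nonneg _
    have h1 : x ^ p = (x ^ 4) ^ (p / 4 - 1) * x ^ 4 := by
      have h2 : (x ^ 4) ^ (p / 4 - 1 + 1) = (x ^ 4) ^ (p / 4 - 1) * x ^ 4 :=
        Real.rpow_add_one' (by positivity) (by linarith)
      rw [← h2]
      have h3 : (x ^ 4 : ℝ) = x ^ (4 : ℝ) := by
        rw [← Real.rpow_natCast]; norm_num
      rw [h3, ← Real.rpow_mul hx0]
      congr 1
      ring
    rw [h1]
    apply mul_le_mul_of_nonneg_right _ (by positivity)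
    exact Real.rpow_le_rpow (by positivity) (sup4 f N ξ) hr
  have hcont := continuous_SS f N
  have hint : ∫ ξ in (0 : ℝ)..1, ‖SS f N ξ‖ ^ p ≤ W ^ (p / 4 - 1) * M := by
    have h1 : ∫ ξ in (0 : ℝ)..1, ‖SS f N ξ‖ ^ p ≤
        ∫ ξ in (0 : ℝ)..1, W ^ (p / 4 - 1) * ‖SS f N ξ‖ ^ 4 := by
      apply intervalIntegral.integral_mono_on (by norm_num)
      · apply Continuous.intervalIntegrable
        exact hcont.norm.rpow_const (fun _ => Or.inr hp0.le)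
      · apply Continuous.intervalIntegrable
        exact continuous_const.mul (hcont.norm.pow 4)
      · intro ξ _
        exact hpt ξ
    rw [intervalIntegral.integral_const_mul, fourth] at h1
    exact h1
  -- bound W and M
  set B : ℝ := C * (N : ℝ) ^ (3 + ε) * Δ ^ (1 / (2 : ℝ) ^ j) with hB
  have hB0 : 0 < B := by positivity
  have h1 : W ≤ 3 * N * B := by
    rw [hW]
    calc (2 * (N : ℝ) + 1) * M ≤ (3 * N) * B :=
          mul_le_mul (by linarith) hM1 hM0 (by positivity)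
      _ = _ := by ring
  have h2 : W ^ (p / 4 - 1) * M ≤ (3 * N * B) ^ (p / 4 - 1) * B :=
    mul_le_mul (Real.rpow_le_rpow hW0 h1 hr) hM1 hM0 (by positivity)
  have h3 : (3 * N * B) ^ (p / 4 - 1) * B ≤ (3 * N * B) ^ (p / 4) * (N : ℝ) ^ (-1 : ℝ) := by
    have h4 : (3 * N * B) ^ (p / 4) = (3 * N * B) ^ (p / 4 - 1) * (3 * N * B) := by
      have := Real.rpow_add_one (show (3 * N * B) ≠ 0 by positivity) (p / 4 - 1)
      rw [← this]; congr 1; ring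
    rw [h4, Real.rpow_neg_one]
    have h5 : 3 * N * B * (N : ℝ)⁻¹ = 3 * B := by field_simp
    calc (3 * N * B) ^ (p / 4 - 1) * B ≤ (3 * N * B) ^ (p / 4 - 1) * (3 * B) :=
          mul_le_mul_of_nonneg_left (by linarith) (by positivity)
      _ = (3 * N * B) ^ (p / 4 - 1) * (3 * N * B * (N : ℝ)⁻¹) := by rw [h5]
      _ = _ := by ring
  have h8 : (3 * N * B) ^ (p / 4) * (N : ℝ) ^ (-1 : ℝ) =
      ((3 * C) ^ (1 / 4 : ℝ) * (N : ℝ) ^ (1 - 1 / p + ε / 4) * Δ ^ σ) ^ p := by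
    have e1 : 3 * N * B = (3 * C) * (N : ℝ) ^ (4 + ε) * Δ ^ (1 / (2 : ℝ) ^ j) := by
      rw [hB]
      have : (N : ℝ) ^ (4 + ε) = N * (N : ℝ) ^ (3 + ε) := by
        rw [show (4 : ℝ) + ε = 1 + (3 + ε) by ring, Real.rpow_add hN0, Real.rpow_one]
      rw [this]; ring
    have e0 : (0 : ℝ) ≤ 3 * C := by linarith
    have lhs : ((3 * C) * (N : ℝ) ^ (4 + ε) * Δ ^ (1 / (2 : ℝ) ^ j)) ^ (p / 4) =
        (3 * C) ^ (p / 4) * (N : ℝ) ^ ((4 + ε) * (p / 4)) * Δ ^ (1 / (2 : ℝ) ^ j * (p / 4)) := by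
      rw [Real.mul_rpow (x := (3 * C) * (N : ℝ) ^ (4 + ε)) (by positivity) (by positivity),
        Real.mul_rpow (x := 3 * C) e0 (by positivity), Real.rpow_mul hN0.le,
        Real.rpow_mul hΔ0.le]
    have rhs : ((3 * C) ^ (1 / 4 : ℝ) * (N : ℝ) ^ (1 - 1 / p + ε / 4) * Δ ^ σ) ^ p =
        (3 * C) ^ ((1 / 4 : ℝ) * p) * (N : ℝ) ^ ((1 - 1 / p + ε / 4) * p) * Δ ^ (σ * p) := by
      rw [Real.mul_rpow (x := (3 * C) ^ (1 / 4 : ℝ) * (N : ℝ) ^ (1 - 1 / p + ε / 4)) (by positivity)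
        (by positivity), Real.mul_rpow (x := (3 * C) ^ (1 / 4 : ℝ)) (by positivity) (by positivity),
        Real.rpow_mul hN0.le, Real.rpow_mul hΔ0.le, Real.rpow_mul e0]
    rw [e1, lhs, rhs]
    have e2 : 1 / (2 : ℝ) ^ j * (p / 4) = σ * p := by
      rw [hσ, pow_add]; field_simp; norm_num
    have e3 : (N : ℝ) ^ ((4 + ε) * (p / 4)) * (N : ℝ) ^ (-1 : ℝ) =
        (N : ℝ) ^ ((1 - 1 / p + ε / 4) * p) := by
      rw [← Real.rpow_add hN0]
      congr 1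
      field_simp
      ring
    have e5 : (1 / 4 : ℝ) * p = p / 4 := by ring
    rw [e2, e5, ← e3]
    ring
  refine (hint.trans (h2.trans h3)).trans ?_
  rw [h8]
  apply Real.rpow_le_rpow (by positivity) _ hp0.le
  have e6 : (3 * C) ^ (1 / 4 : ℝ) ≤ 3 * C := by
    calc (3 * C) ^ (1 / 4 : ℝ) ≤ (3 * C) ^ (1 : ℝ) :=
          Real.rpow_le_rpow_of_exponent_le (by linarith) (by norm_num)
      _ = _ := Real.rpow_one _
  have e7 : (N : ℝ) ^ (1 - 1 / p + ε / 4) ≤ (N : ℝ) ^ (1 - 1 / p + ε) :=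
    Real.rpow_le_rpow_of_exponent_le hN1 (by linarith)
  gcongr

end

end Pool.Agent.H78R2.Mont
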