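import Mathlib

set_option autoImplicit false

/-! Geometric sums: `G N θ` is a majorant of `min(N, 1/(2‖θ‖))`. -/

namespace Pool.Agent.H78R2.Mont

open Finset

noncomputable section

/-- `e(x) = exp(2πix)` -/
def e (x : ℝ) : ℂ := Complex.exp (2 * (Real.pi : ℂ) * Complex.I * (x : ℂ))

lemma e_add (x y : ℝ) : e (x + y) = e x * e y := by
  unfold e
  rw [← Complex.exp_add]
  congr 1
  push_cast
  ring

lemma e_zero : e 0 = 1 := by unfold e; simp

lemma e_int (n : ℤ) : e (n : ℝ) = 1 := by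
  unfold e
  rw [Complex.exp_eq_one_iff]
  exact ⟨n, by push_cast; ring⟩

lemma e_neg (x : ℝ) : e (-x) = (starRingEnd ℂ) (e x) := by
  unfold e
  rw [← Complex.exp_conj]
  congr 1
  have h : 2 * (Real.pi : ℂ) * Complex.I * (x : ℂ) = ((2 * Real.pi * x : ℝ) : ℂ) * Complex.I := by
    push_cast; ring
  rw [h, map_mul, Complex.conj_ofReal, Complex.conj_I]
  push_cast
  ring

lemma norm_e (x : ℝ) : ‖e x‖ = 1 := by
  unfold e
  rw [show 2 * (Real.pi : ℂ) * Complex.I * (x : ℂ) = ((2 * Real.pi * x : ℝ) : ℂ) * Complex.I by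
    push_cast; ring]
  exact Complex.norm_exp_ofReal_mul_I _

/-- distance to the nearest integer -/
def nn (x : ℝ) : ℝ := |x - round x|

lemma nn_nonneg (x : ℝ) : 0 ≤ nn x := abs_nonneg _

lemma nn_le_half (x : ℝ) : nn x ≤ 1 / 2 := abs_sub_round x

/-- the majorant of `min(N, 1/(2‖θ‖))` -/
def G (N : ℕ) (θ : ℝ) : ℝ := 2 * N / (1 + 2 * N * nn θ)

lemma G_nonneg (N : ℕ) (θ : ℝ) : 0 ≤ G N θ := by
  unfold G
  have := nn_nonneg θ
  positivity

lemma G_le (N : ℕ) (θ : ℝ) : G N θ ≤ 2 * N := by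
  unfold G
  have h := nn_nonneg θ
  apply div_le_self (by positivity)
  have : 0 ≤ 2 * (N : ℝ) * nn θ := by positivity
  linarith

lemma e_sub_one (θ : ℝ) : 4 * nn θ ≤ ‖1 - e θ‖ := by
  -- ‖1 - e θ‖ = 2 |sin (π θ)|
  have h0 : e θ = e (θ - round θ) := by
    have : θ = (θ - round θ) + (round θ : ℤ) := by ring
    conv_lhs => rw [this]
    rw [e_add, e_int, mul_one]
  set δ : ℝ := θ - round θ with hδ
  have hδ2 : |δ| ≤ 1 / 2 := abs_sub_round θ
  rw [h0]
  have h1 : ‖1 - e δ‖ = 2 * |Real.sin (Real.pi * δ)| := by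
    have h2 : (1 : ℂ) - e δ = -(2 * Complex.I * Complex.sin ((Real.pi * δ : ℝ) : ℂ) *
        Complex.exp (((Real.pi * δ : ℝ) : ℂ) * Complex.I)) := by
      unfold e
      rw [Complex.sin]
      have h3 : Complex.exp (2 * (Real.pi : ℂ) * Complex.I * (δ : ℂ)) =
          Complex.exp (((Real.pi * δ : ℝ) : ℂ) * Complex.I) *
          Complex.exp (((Real.pi * δ : ℝ) : ℂ) * Complex.I) := by
        rw [← Complex.exp_add]; congr 1; push_cast; ring
      have h4 : Complex.exp (-((Real.pi * δ : ℝ) : ℂ) * Complex.I) *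
          Complex.exp (((Real.pi * δ : ℝ) : ℂ) * Complex.I) = 1 := by
        rw [← Complex.exp_add]
        have : -((Real.pi * δ : ℝ) : ℂ) * Complex.I + ((Real.pi * δ : ℝ) : ℂ) * Complex.I = 0 := by
          ring
        rw [this, Complex.exp_zero]
      rw [h3]
      have h5 : Complex.I * Complex.I = -1 := Complex.I_mul_I
      linear_combination (-1 : ℂ) * h4 + (Complex.exp (-((Real.pi * δ : ℝ) : ℂ) * Complex.I) -
        Complex.exp (((Real.pi * δ : ℝ) : ℂ) * Complex.I)) *
        Complex.exp (((Real.pi * δ : ℝ) : ℂ) * Complex.I) * h5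
    rw [h2, norm_neg, norm_mul, norm_mul, norm_mul, Complex.norm_I, Complex.norm_exp_ofReal_mul_I,
      ← Complex.ofReal_sin, Complex.norm_real]
    simp
  rw [h1]
  have h6 : 2 * |δ| ≤ |Real.sin (Real.pi * δ)| := by
    rcases le_total 0 δ with hd | hd
    · rw [abs_of_nonneg hd] at hδ2 ⊢
      have h7 := Real.mul_le_sin (x := Real.pi * δ) (by positivity)
        (by nlinarith [Real.pi_pos])
      have h8 : 2 / Real.pi * (Real.pi * δ) = 2 * δ := by
        field_simp
      rw [h8] at h7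
      exact h7.trans (le_abs_self _)
    · rw [abs_of_nonpos hd] at hδ2 ⊢
      have h7 := Real.mul_le_sin (x := Real.pi * (-δ)) (by
          have : 0 ≤ -δ := by linarith
          positivity)
        (by nlinarith [Real.pi_pos])
      have h8 : 2 / Real.pi * (Real.pi * (-δ)) = 2 * (-δ) := by
        field_simp
      rw [h8] at h7
      have h9 : Real.sin (Real.pi * (-δ)) = - Real.sin (Real.pi * δ) := by
        rw [mul_neg, Real.sin_neg]
      rw [h9] at h7
      exact h7.trans (neg_le_abs _)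
  have h10 : nn θ = |δ| := rfl
  rw [h10]
  linarith

/-- geometric sums over a range -/
lemma geo_range (N : ℕ) (θ c : ℝ) (L : ℕ) (hL : L ≤ N) :
    ‖∑ i ∈ range L, e (i * θ + c)‖ ≤ G N θ := by
  have h1 : ∑ i ∈ range L, e (i * θ + c) = e c * ∑ i ∈ range L, (e θ) ^ i := by
    rw [mul_sum]
    apply sum_congr rfl
    intro i _
    have : ∀ i : ℕ, e (i * θ) = e θ ^ i := by
      intro i
      induction i with
      | zero => simp [e_zero]
      | succ i ih => rw [pow_succ, ← ih, ← e_add]; congr 1; push_cast; ring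
    rw [e_add, this, mul_comm]
  rw [h1, norm_mul, norm_e, one_mul]
  have hN0 : (0 : ℝ) ≤ N := Nat.cast_nonneg _
  have hnn := nn_nonneg θ
  -- trivial bound
  have h2 : ‖∑ i ∈ range L, (e θ) ^ i‖ ≤ N := by
    refine (norm_sum_le _ _).trans ?_
    have : ∀ i ∈ range L, ‖(e θ) ^ i‖ ≤ 1 := by
      intro i _; rw [norm_pow, norm_e, one_pow]
    refine (sum_le_sum this).trans ?_
    simp
    exact_mod_cast hL
  have h3 : ‖∑ i ∈ range L, (e θ) ^ i‖ * ‖1 - e θ‖ ≤ 2 := by
    rw [← norm_mul]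
    have h4 : (∑ i ∈ range L, (e θ) ^ i) * (1 - e θ) = 1 - (e θ) ^ L := by
      have := geom_sum_mul (e θ) L
      linear_combination (-1 : ℂ) * this
    rw [h4]
    refine (norm_sub_le _ _).trans ?_
    rw [norm_pow, norm_e, one_pow, norm_one]
    norm_num
  have h5 := e_sub_one θ
  set X := ‖∑ i ∈ range L, (e θ) ^ i‖ with hX
  have hX0 : 0 ≤ X := norm_nonneg _
  unfold G
  rw [le_div_iff₀ (by positivity)]
  have h6 : X * (4 * nn θ) ≤ 2 := (mul_le_mul_of_nonneg_left h5 hX0).trans h3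
  nlinarith

/-- geometric sums over an interval of integers -/
lemma geo_Icc (N : ℕ) (θ c : ℝ) (A B : ℤ) (hA : 1 ≤ A) (hB : B ≤ N) :
    ‖∑ m ∈ Icc A B, e (m * θ + c)‖ ≤ G N θ := by
  rcases lt_or_ge B A with h | h
  · rw [Icc_eq_empty (by omega)]
    simpa using G_nonneg N θ
  · have h1 : ∑ m ∈ Icc A B, e (m * θ + c) =
        ∑ i ∈ range (B - A + 1).toNat, e (i * θ + (A * θ + c)) := by
      symm
      apply sum_bij (fun (i : ℕ) _ => (A + i : ℤ))
      · intro i hi
        rw [mem_range] at hi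
        rw [mem_Icc]
        omega
      · intro i _ j _ hij
        omega
      · intro m hm
        rw [mem_Icc] at hm
        exact ⟨(m - A).toNat, by rw [mem_range]; omega, by omega⟩
      · intro i _
        congr 1
        push_cast
        ring
    rw [h1]
    apply geo_range
    omega

end

end Pool.Agent.H78R2.Mont
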