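import Pool.Agent.H78R2.Mont.Pol
import Pool.Agent.H78R2.Mont.Dv

set_option autoImplicit false

/-! Parseval, and the fourth moment in the linear coefficient. -/

namespace Pool.Agent.H78R2.Mont

open Finset MeasureTheory

noncomputable section

lemma integral_e (n : ℤ) : ∫ ξ in (0 : ℝ)..1, e (ξ * n) = if n = 0 then 1 else 0 := by
  by_cases hn : n = 0
  · subst hn
    simp [e_zero]
  · rw [if_neg hn]
    have hc : (2 * (Real.pi : ℂ) * Complex.I * n) ≠ 0 := by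
      simp [Real.pi_ne_zero, hn]
    have h1 : ∀ ξ : ℝ, e (ξ * n) = Complex.exp ((2 * (Real.pi : ℂ) * Complex.I * n) * ξ) := by
      intro ξ
      unfold e
      congr 1
      push_cast
      ring
    simp_rw [h1]
    rw [integral_exp_mul_complex hc]
    have h2 : Complex.exp ((2 * (Real.pi : ℂ) * Complex.I * n) * ((1 : ℝ) : ℂ)) = 1 := by
      rw [Complex.exp_eq_one_iff]
      exact ⟨n, by push_cast; ring⟩
    rw [h2]
    simp

lemma continuous_e : Continuous e := by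
  unfold e
  fun_prop

lemma parseval (H : Finset ℤ) (A : ℤ → ℂ) :
    ∫ ξ in (0 : ℝ)..1, ‖∑ h ∈ H, e (ξ * h) * A h‖ ^ 2 = ∑ h ∈ H, ‖A h‖ ^ 2 := by
  classical
  have h1 : ∀ ξ : ℝ, ((‖∑ h ∈ H, e (ξ * h) * A h‖ ^ 2 : ℝ) : ℂ) =
      ∑ h ∈ H, ∑ h' ∈ H, A h * (starRingEnd ℂ) (A h') * e (ξ * ((h - h' : ℤ) : ℝ)) := by
    intro ξ
    rw [Complex.ofReal_pow, ← Complex.mul_conj', map_sum, sum_mul_sum]
    apply sum_congr rfl
    intro h _
    apply sum_congr rfl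
    intro h' _
    rw [map_mul, ← e_neg]
    have : e (ξ * ((h - h' : ℤ) : ℝ)) = e (ξ * h) * e (-(ξ * h')) := by
      rw [← e_add]; congr 1; push_cast; ring
    rw [this]
    ring
  have h2 : ((∫ ξ in (0 : ℝ)..1, ‖∑ h ∈ H, e (ξ * h) * A h‖ ^ 2 : ℝ) : ℂ) =
      ((∑ h ∈ H, ‖A h‖ ^ 2 : ℝ) : ℂ) := by
    rw [← intervalIntegral.integral_ofReal]
    simp_rw [h1]
    rw [intervalIntegral.integral_finsetSum]
    · rw [Complex.ofReal_sum]
      apply sum_congr rfl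
      intro h hh
      rw [intervalIntegral.integral_finsetSum]
      · have h3 : ∀ h' ∈ H, ∫ ξ in (0 : ℝ)..1, A h * (starRingEnd ℂ) (A h') *
            e (ξ * ((h - h' : ℤ) : ℝ)) = if h' = h then A h * (starRingEnd ℂ) (A h') else 0 := by
          intro h' _
          rw [intervalIntegral.integral_const_mul, integral_e]
          by_cases hhh : h' = h
          · rw [if_pos hhh, if_pos (by omega), mul_one]
          · rw [if_neg hhh, if_neg (by omega), mul_zero]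
        rw [sum_congr rfl h3, sum_ite_eq' H h, if_pos hh, Complex.mul_conj', Complex.ofReal_pow]
      · intro h' _
        apply Continuous.intervalIntegrable
        exact continuous_const.mul (continuous_e.comp (by fun_prop))
    · intro h _
      apply Continuous.intervalIntegrable
      apply continuous_finsetSum
      intro h' _
      exact continuous_const.mul (continuous_e.comp (by fun_prop))
  exact_mod_cast h2

/-- the Weyl sum of `f(n) + ξ n` -/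
def SS (f : Polynomial ℝ) (N : ℕ) (ξ : ℝ) : ℂ := ES (fun m : ℤ => f.eval (m : ℝ) + ξ * m) 1 N

lemma SS_eq (f : Polynomial ℝ) (N : ℕ) (ξ : ℝ) :
    ∑ n ∈ Icc 1 N, Complex.exp (2 * (Real.pi : ℂ) * Complex.I *
      (((f.eval (n : ℝ) + ξ * (n : ℝ)) : ℝ) : ℂ)) = SS f N ξ := by
  unfold SS ES
  apply sum_bij (fun (n : ℕ) _ => (n : ℤ))
  · intro n hn
    rw [mem_Icc] at hn ⊢
    omega
  · intro a _ b _ hab
    exact_mod_cast hab
  · intro m hm
    rw [mem_Icc] at hm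
    exact ⟨m.toNat, by rw [mem_Icc]; omega, by omega⟩
  · intro n _
    unfold e
    simp only [Int.cast_natCast]

/-- the coefficients of `|S|^2` -/
def AA (f : Polynomial ℝ) (N : ℕ) (h : ℤ) : ℂ :=
  ES (Dl h (fun m : ℤ => f.eval (m : ℝ))) (max 1 (1 - h)) (min N (N - h))

/-- the fourth moment -/
def MM (f : Polynomial ℝ) (N : ℕ) : ℝ := ∑ h ∈ Icc (-(N : ℤ)) N, ‖AA f N h‖ ^ 2

lemma MM_nonneg (f : Polynomial ℝ) (N : ℕ) : 0 ≤ MM f N := sum_nonneg (fun _ _ => by positivity)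

lemma SS_sq (f : Polynomial ℝ) (N : ℕ) (ξ : ℝ) :
    SS f N ξ * (starRingEnd ℂ) (SS f N ξ) = ∑ h ∈ Icc (-(N : ℤ)) N, e (ξ * h) * AA f N h := by
  unfold SS
  rw [sq_eq N 1 N (le_refl _) (le_refl _)]
  apply sum_congr rfl
  intro h _
  unfold AA ES
  rw [mul_sum]
  apply sum_congr rfl
  intro m _
  rw [← e_add]
  congr 1
  unfold Dl
  push_cast
  ring

lemma norm4 (f : Polynomial ℝ) (N : ℕ) (ξ : ℝ) :
    ‖SS f N ξ‖ ^ 4 = ‖∑ h ∈ Icc (-(N : ℤ)) N, e (ξ * h) * AA f N h‖ ^ 2 := by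
  rw [← SS_sq, norm_mul, RCLike.norm_conj]
  ring

lemma fourth (f : Polynomial ℝ) (N : ℕ) : ∫ ξ in (0 : ℝ)..1, ‖SS f N ξ‖ ^ 4 = MM f N := by
  simp_rw [norm4]
  exact parseval _ _

lemma sup4 (f : Polynomial ℝ) (N : ℕ) (ξ : ℝ) : ‖SS f N ξ‖ ^ 4 ≤ (2 * (N : ℝ) + 1) * MM f N := by
  rw [norm4]
  have h1 : ‖∑ h ∈ Icc (-(N : ℤ)) N, e (ξ * h) * AA f N h‖ ≤
      ∑ h ∈ Icc (-(N : ℤ)) N, ‖AA f N h‖ := by
    refine (norm_sum_le _ _).trans (le_of_eq ?_)
    apply sum_congr rfl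
    intro h _
    rw [norm_mul, norm_e, one_mul]
  have h2 := powsum N (fun h => ‖AA f N h‖) (fun _ => norm_nonneg _) 1
  have h3 : ‖∑ h ∈ Icc (-(N : ℤ)) N, e (ξ * h) * AA f N h‖ ^ 2 ≤
      (∑ h ∈ Icc (-(N : ℤ)) N, ‖AA f N h‖) ^ 2 := pow_le_pow_left₀ (norm_nonneg _) h1 2
  refine h3.trans ?_
  have h4 : (2 : ℕ) ^ 1 = 2 := by norm_num
  rw [h4] at h2
  have h5 : (2 * (N : ℝ) + 1) ^ (2 - 1) = 2 * (N : ℝ) + 1 := by norm_num
  rw [h5] at h2
  exact h2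

lemma continuous_SS (f : Polynomial ℝ) (N : ℕ) : Continuous (fun ξ : ℝ => SS f N ξ) := by
  unfold SS ES
  apply continuous_finsetSum
  intro m _
  exact continuous_e.comp (by fun_prop)

/-- Hölder and Weyl -/
lemma MM_pow (j N : ℕ) (f : Polynomial ℝ) (hf : f.natDegree ≤ j + 3) :
    MM f N ^ (2 ^ j) ≤ (2 * (N : ℝ) + 1) ^ (3 * 2 ^ j - (j + 3)) *
      QQ N (j + 3) (((j + 3).factorial : ℝ) * f.coeff (j + 3)) := by
  have h1 := powsum N (fun h => ‖AA f N h‖ ^ 2) (fun _ => by positivity) j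
  have h2 : ∀ h ∈ Icc (-(N : ℤ)) N, (‖AA f N h‖ ^ 2) ^ (2 ^ j) ≤
      (2 * (N : ℝ) + 1) ^ (2 ^ (j + 1) - (j + 1 + 1)) *
        QQ N (j + 1 + 1) (((j + 3).factorial : ℝ) * f.coeff (j + 3) * h) := by
    intro h _
    have h3 : (‖AA f N h‖ ^ 2) ^ (2 ^ j) = ‖AA f N h‖ ^ (2 ^ (j + 1)) := by
      rw [← pow_mul]; congr 1; rw [pow_succ]; ring
    rw [h3]
    have h4 := pc_pol (j + 2) f hf
    have h5 : PC (j + 1 + 1) (((j + 3).factorial : ℝ) * f.coeff (j + 3) * h)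
        (Dl h (fun m : ℤ => f.eval (m : ℝ))) := h4 h
    exact weyl N (j + 1) _ _ _ _ (le_max_left _ _) (min_le_left _ _) h5
  have h6 : ∑ h ∈ Icc (-(N : ℤ)) N, (‖AA f N h‖ ^ 2) ^ (2 ^ j) ≤
      (2 * (N : ℝ) + 1) ^ (2 ^ (j + 1) - (j + 1 + 1)) *
        QQ N (j + 3) (((j + 3).factorial : ℝ) * f.coeff (j + 3)) := by
    refine (sum_le_sum h2).trans ?_
    rw [← mul_sum]
    exact le_of_eq rfl
  have h7 : j + 1 ≤ 2 ^ j := Nat.lt_two_pow_self
  calc MM f N ^ (2 ^ j) ≤ (2 * (N : ℝ) + 1) ^ (2 ^ j - 1) *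
        ((2 * (N : ℝ) + 1) ^ (2 ^ (j + 1) - (j + 1 + 1)) *
        QQ N (j + 3) (((j + 3).factorial : ℝ) * f.coeff (j + 3))) :=
        h1.trans (mul_le_mul_of_nonneg_left h6 (by positivity))
    _ = _ := by
        rw [← mul_assoc, ← pow_add]
        congr 2
        rw [pow_succ]
        omega

end

end Pool.Agent.H78R2.Mont
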