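import Pool.Agent.H78R2.Mont.Vdc

set_option autoImplicit false

/-! Polynomials have constant iterated differences. -/

namespace Pool.Agent.H78R2.Mont

open Finset Polynomial

noncomputable section

lemma hasse_top (p : ℝ[X]) (n : ℕ) (hp : p.natDegree ≤ n) (r : ℝ) :
    (hasseDeriv n p).eval r = p.coeff n := by
  have h1 : (hasseDeriv n p).natDegree ≤ 0 := by
    have := natDegree_hasseDeriv_le p n
    omega
  rw [eq_C_of_natDegree_le_zero h1, eval_C, hasseDeriv_coeff]
  simp

lemma hasse_next (p : ℝ[X]) (n : ℕ) (hp : p.natDegree ≤ n + 1) (r : ℝ) :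
    (hasseDeriv n p).eval r = (n + 1) * p.coeff (n + 1) * r + p.coeff n := by
  have h1 : (hasseDeriv n p).natDegree ≤ 1 := by
    have := natDegree_hasseDeriv_le p n
    omega
  rw [eq_X_add_C_of_natDegree_le_one h1]
  simp only [eval_add, eval_mul, eval_C, eval_X, hasseDeriv_coeff]
  have h2 : (1 + n).choose n = n + 1 := by
    rw [add_comm, Nat.choose_succ_self_right]
  rw [h2, zero_add, Nat.choose_self, add_comm 1 n]
  push_cast
  ring

lemma pc_pol : ∀ (d : ℕ) (p : ℝ[X]), p.natDegree ≤ d + 1 →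
    PC (d + 1) (((d + 1).factorial : ℝ) * p.coeff (d + 1)) (fun m : ℤ => p.eval (m : ℝ))
  | 0, p, hp => by
    refine ⟨p.coeff 0, fun m => ?_⟩
    conv_lhs => rw [eq_X_add_C_of_natDegree_le_one hp]
    simp
    ring
  | (d + 1), p, hp => by
    intro h
    set q : ℝ[X] := taylor (h : ℝ) p - p with hq
    have h1 : ∀ n, d + 1 < n → q.coeff n = 0 := by
      intro n hn
      rw [hq, coeff_sub, taylor_coeff, hasse_top p n (by omega), sub_self]
    have h2 : q.natDegree ≤ d + 1 := by
      rw [natDegree_le_iff_coeff_eq_zero]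
      exact h1
    have h3 : q.coeff (d + 1) = ((d : ℝ) + 2) * h * p.coeff (d + 2) := by
      rw [hq, coeff_sub, taylor_coeff, hasse_next p (d + 1) hp]
      push_cast
      ring
    have h4 := pc_pol d q h2
    have h5 : Dl h (fun m : ℤ => p.eval (m : ℝ)) = fun m : ℤ => q.eval (m : ℝ) := by
      funext m
      unfold Dl
      rw [hq, eval_sub, taylor_eval]
      push_cast
      ring_nf
    rw [h5]
    have h6 : (((d + 1 + 1).factorial : ℝ) * p.coeff (d + 1 + 1)) * (h : ℝ) =
        ((d + 1).factorial : ℝ) * q.coeff (d + 1) := by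
      rw [h3, Nat.factorial_succ (d + 1)]
      push_cast
      ring
    rw [h6]
    exact h4

lemma pc_mono (d : ℕ) (t : ℝ) :
    PC (d + 1) (((d + 1).factorial : ℝ) * t) (fun m : ℤ => t * (m : ℝ) ^ (d + 1)) := by
  have h := pc_pol d (C t * X ^ (d + 1)) (natDegree_C_mul_X_pow_le t (d + 1))
  have h1 : (C t * X ^ (d + 1) : ℝ[X]).coeff (d + 1) = t := by
    rw [coeff_C_mul_X_pow]; simp
  rw [h1] at h
  have h2 : (fun m : ℤ => (C t * X ^ (d + 1) : ℝ[X]).eval (m : ℝ)) =
      fun m : ℤ => t * (m : ℝ) ^ (d + 1) := by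
    funext m
    simp
  rw [h2] at h
  exact h

end

end Pool.Agent.H78R2.Mont
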